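import Mathlib

/-!
# Orbits of shift-like maps near an eigenline avoid a polydisc
-/

set_option autoImplicit false

namespace Pool.Agent.KS6_4.EH

open Filter Topology Set

/-- one step of the telescoping sum -/
lemma err_aux {k q D : ℕ} {a : ℂ} {X : ℕ → ℂ} {β : ℝ} (hk : 1 ≤ k) (hD : 2 ≤ D)
    (hβ : 0 < β) (hβ1 : β ≤ 1 / 100) (ha : ‖a‖ = β ^ k)
    (hX : ∀ n, X (n + k) = a * (X n + X (n + q) ^ D)) {n0 n : ℕ}
    (h0 : ∀ m, n0 ≤ m → ‖X m‖ ≤ β ^ (m - n0)) (hn : n0 ≤ n + q) (J : ℕ) :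
    ‖X n - (a ^ J)⁻¹ * X (n + k * J)‖ ≤ β ^ (D * (n + q - n0)) * (2 - 2 * (1 / 2) ^ J) := by
  have ha0 : a ≠ 0 := by
    rintro rfl
    rw [norm_zero] at ha
    have := pow_pos hβ k
    linarith
  induction J with
  | zero => simp
  | succ J ih =>
    have e1 : X (n + k * J) = a⁻¹ * X (n + k * (J + 1)) - X (n + k * J + q) ^ D := by
      have h := hX (n + k * J)
      have e : n + k * (J + 1) = n + k * J + k := by ring
      rw [e, h, ← mul_assoc, inv_mul_cancel₀ ha0, one_mul]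
      ring
    have e2 : X n - (a ^ (J + 1))⁻¹ * X (n + k * (J + 1)) =
        (X n - (a ^ J)⁻¹ * X (n + k * J)) - (a ^ J)⁻¹ * X (n + k * J + q) ^ D := by
      rw [e1, pow_succ, mul_inv]
      ring
    rw [e2]
    refine (norm_sub_le _ _).trans ?_
    have h1 : ‖(a ^ J)⁻¹ * X (n + k * J + q) ^ D‖ ≤
        β ^ (D * (n + q - n0)) * (1 / 2) ^ J := by
      rw [norm_mul, norm_inv, norm_pow, norm_pow, ha]
      have h2 := h0 (n + k * J + q) (by omega)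
      have e3 : n + k * J + q - n0 = (n + q - n0) + k * J := by omega
      rw [e3] at h2
      have h3 : ‖X (n + k * J + q)‖ ^ D ≤ (β ^ ((n + q - n0) + k * J)) ^ D := by gcongr
      have h4 : (β ^ ((n + q - n0) + k * J)) ^ D =
          β ^ (D * (n + q - n0)) * ((β ^ k) ^ J * (β ^ (k * (D - 1))) ^ J) := by
        rw [← pow_mul, ← pow_mul, ← pow_mul, ← pow_add, ← pow_add]
        congr 1
        obtain ⟨D', rfl⟩ : ∃ D', D = D' + 1 := ⟨D - 1, by omega⟩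
        rw [Nat.add_sub_cancel]
        ring
      have h5 : β ^ (k * (D - 1)) ≤ 1 / 2 := by
        have h6 : β ^ (k * (D - 1)) ≤ β ^ 1 := by
          apply pow_le_pow_of_le_one hβ.le (by linarith)
          have : 1 ≤ D - 1 := by omega
          nlinarith
        rw [pow_one] at h6
        linarith
      have h7 : (β ^ (k * (D - 1))) ^ J ≤ (1 / 2) ^ J := by gcongr
      calc ((β ^ k) ^ J)⁻¹ * ‖X (n + k * J + q)‖ ^ D
          ≤ ((β ^ k) ^ J)⁻¹ * (β ^ (D * (n + q - n0)) * ((β ^ k) ^ J * (β ^ (k * (D - 1))) ^ J)) := by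
            gcongr
            rw [← h4]
            exact h3
        _ = β ^ (D * (n + q - n0)) * (β ^ (k * (D - 1))) ^ J := by
            have : (β ^ k) ^ J ≠ 0 := by positivity
            field_simp
        _ ≤ _ := by gcongr
    calc _ ≤ β ^ (D * (n + q - n0)) * (2 - 2 * (1 / 2) ^ J) +
          β ^ (D * (n + q - n0)) * (1 / 2) ^ J := add_le_add ih h1
      _ = _ := by rw [pow_succ]; ring

/-- comparison of the orbit with its linear prediction -/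
lemma err {k q D : ℕ} {a : ℂ} {X ℓ : ℕ → ℂ} {β : ℝ} (hk : 1 ≤ k) (hD : 2 ≤ D)
    (hβ : 0 < β) (hβ1 : β ≤ 1 / 100) (ha : ‖a‖ = β ^ k)
    (hX : ∀ n, X (n + k) = a * (X n + X (n + q) ^ D)) {n0 n : ℕ}
    (h0 : ∀ m, n0 ≤ m → ‖X m‖ ≤ β ^ (m - n0)) (hn : n0 ≤ n + q)
    (hℓ : Tendsto (fun J => (a ^ J)⁻¹ * X (n + k * J)) atTop (𝓝 (ℓ n))) :
    ‖X n - ℓ n‖ ≤ 2 * β ^ (D * (n + q - n0)) := by
  refine le_of_tendsto ((tendsto_const_nhds.sub hℓ).norm) (Eventually.of_forall fun J => ?_)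
  refine (err_aux hk hD hβ hβ1 ha hX h0 hn J).trans ?_
  have h1 : 0 ≤ β ^ (D * (n + q - n0)) := by positivity
  have h2 : (0 : ℝ) ≤ (1 / 2) ^ J := by positivity
  nlinarith

/-- the dominance property -/
def Dom (K0 : ℝ) (X : ℕ → ℂ) (n : ℕ) : Prop :=
  K0 ≤ ‖X n‖ ∧ ∀ m, n < m → K0 * ‖X m‖ ≤ ‖X n‖

lemma dom_step {k q D : ℕ} {a : ℂ} {X : ℕ → ℂ} {K0 : ℝ} (hq : q < k) (hD : 1 ≤ D)
    (ha : a ≠ 0) (hK1 : 1 ≤ K0) (hK : 2 * (‖a‖⁻¹ + 1) ≤ K0 ^ (D - 1)) (hK2 : 2 * K0 ≤ K0 ^ (D - 1))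
    (hX : ∀ n, X (n + k) = a * (X n + X (n + q) ^ D)) {n : ℕ} (h : Dom K0 X (n + q)) :
    Dom K0 X n := by
  obtain ⟨h1, h2⟩ := h
  set x := ‖X (n + q)‖ with hx
  have hb : ∀ m, n ≤ m → X m = a⁻¹ * X (m + k) - X (m + q) ^ D := by
    intro m _
    rw [hX m, ← mul_assoc, inv_mul_cancel₀ ha, one_mul]
    ring
  have hK0 : 0 < K0 := by linarith
  have hx1 : 1 ≤ x := hK1.trans h1
  set A := ‖a‖⁻¹ with hA
  have hA0 : 0 ≤ A := by positivity
  have hpow : K0 ^ (D - 1) * x ≤ x ^ D := by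
    obtain ⟨D', rfl⟩ : ∃ D', D = D' + 1 := ⟨D - 1, by omega⟩
    rw [Nat.add_sub_cancel, pow_succ]
    gcongr
  have hL : x ^ D / 2 ≤ ‖X n‖ := by
    rw [hb n le_rfl]
    have h3 : ‖a⁻¹ * X (n + k)‖ ≤ A * x := by
      rw [norm_mul, norm_inv]
      have h4 := h2 (n + k) (by omega)
      have h5 : ‖X (n + k)‖ ≤ x := by
        have := norm_nonneg (X (n + k))
        nlinarith
      gcongr
    have h4 : ‖X (n + q) ^ D‖ = x ^ D := by rw [norm_pow]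
    have h5 := norm_sub_norm_le (X (n + q) ^ D) (a⁻¹ * X (n + k))
    rw [norm_sub_rev] at h5
    nlinarith
  have hx0 : 0 ≤ x := by linarith
  have hmid : K0 * x ≤ ‖X n‖ := by nlinarith
  refine ⟨by nlinarith, fun m hm => ?_⟩
  rcases lt_trichotomy m (n + q) with h3 | h3 | h3
  · rw [hb m hm.le]
    have h4 : ‖a⁻¹ * X (m + k)‖ * K0 ≤ A * x := by
      rw [norm_mul, norm_inv]
      have h5 := h2 (m + k) (by omega)
      calc ‖a‖⁻¹ * ‖X (m + k)‖ * K0 = A * (K0 * ‖X (m + k)‖) := by rw [hA]; ring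
        _ ≤ A * x := by gcongr
    have h5 : K0 * ‖X (m + q) ^ D‖ ≤ x ^ D / K0 ^ (D - 1) := by
      have h6 := h2 (m + q) (by omega)
      rw [norm_pow, le_div_iff₀ (by positivity)]
      have h7 : K0 * ‖X (m + q)‖ ^ D * K0 ^ (D - 1) = (K0 * ‖X (m + q)‖) ^ D := by
        rw [mul_pow]
        obtain ⟨D', rfl⟩ : ∃ D', D = D' + 1 := ⟨D - 1, by omega⟩
        rw [Nat.add_sub_cancel]
        ring
      rw [h7]
      gcongr
    have h6 : A * x ≤ A * (x ^ D / K0 ^ (D - 1)) := by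
      gcongr
      rw [le_div_iff₀ (by positivity)]
      linarith
    have h7 : (A + 1) * (x ^ D / K0 ^ (D - 1)) ≤ x ^ D / 2 := by
      rw [mul_div_assoc', div_le_div_iff₀ (by positivity) (by norm_num)]
      have : 0 ≤ x ^ D := by positivity
      nlinarith
    calc K0 * ‖a⁻¹ * X (m + k) - X (m + q) ^ D‖
        ≤ K0 * (‖a⁻¹ * X (m + k)‖ + ‖X (m + q) ^ D‖) := by
          gcongr
          exact norm_sub_le _ _
      _ = ‖a⁻¹ * X (m + k)‖ * K0 + K0 * ‖X (m + q) ^ D‖ := by ring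
      _ ≤ A * (x ^ D / K0 ^ (D - 1)) + x ^ D / K0 ^ (D - 1) := add_le_add (h4.trans h6) h5
      _ = (A + 1) * (x ^ D / K0 ^ (D - 1)) := by ring
      _ ≤ x ^ D / 2 := h7
      _ ≤ _ := hL
  · rw [h3]; exact hmid
  · have := h2 m h3
    nlinarith

lemma dom_all {k q D : ℕ} {a : ℂ} {X : ℕ → ℂ} {K0 : ℝ} (hq : q < k) (hD : 1 ≤ D)
    (ha : a ≠ 0) (hK1 : 1 ≤ K0) (hK : 2 * (‖a‖⁻¹ + 1) ≤ K0 ^ (D - 1)) (hK2 : 2 * K0 ≤ K0 ^ (D - 1))
    (hX : ∀ n, X (n + k) = a * (X n + X (n + q) ^ D)) (n j : ℕ) (h : Dom K0 X (n + q * j)) :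
    Dom K0 X n := by
  induction j with
  | zero => simpa using h
  | succ j ih =>
    apply ih
    apply dom_step hq hD ha hK1 hK hK2 hX
    rw [add_assoc, ← Nat.mul_succ]
    exact h

lemma K_cond {k D : ℕ} {u : ℝ} (hu : 100 ≤ u) (hk : 1 ≤ k) (hD : 2 * k + 2 ≤ D) :
    2 * (u ^ k + 1) ≤ (u / 3) ^ (D - 1) ∧ 2 * (u / 3) ≤ (u / 3) ^ (D - 1) := by
  have h1 : u ≤ (u / 3) ^ 2 := by nlinarith
  have h2 : u ^ k ≤ ((u / 3) ^ 2) ^ k := by gcongr
  have h3 : (u / 3) ^ (2 * k + 1) ≤ (u / 3) ^ (D - 1) :=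
    pow_le_pow_right₀ (by linarith) (by omega)
  have h4 : (1 : ℝ) ≤ u ^ k := one_le_pow₀ (by linarith)
  have h5 : (u / 3) ^ (2 * k + 1) = ((u / 3) ^ 2) ^ k * (u / 3) := by
    rw [pow_succ, pow_mul]
  constructor
  · refine le_trans ?_ h3
    rw [h5]
    nlinarith
  · refine le_trans ?_ h3
    rw [h5]
    have : 1 ≤ ((u / 3) ^ 2) ^ k := h4.trans h2
    have h6 : u ^ 1 ≤ u ^ k := pow_le_pow_right₀ (by linarith) hk
    nlinarith

theorem avoid {k q D : ℕ} {a : ℂ} {X ℓ : ℕ → ℂ} {β : ℝ} (hq2 : 2 ≤ q) (hq : q < k)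
    (hD : 2 * k + 2 ≤ D) (hβ : 0 < β) (hβ1 : β ≤ 1 / 100) (ha : ‖a‖ = β ^ k)
    (hX : ∀ n, X (n + k) = a * (X n + X (n + q) ^ D))
    (hdec : ∃ C, ∀ n, ‖X n‖ ≤ C * β ^ n)
    (hℓ : ∀ n, Tendsto (fun J => (a ^ J)⁻¹ * X (n + k * J)) atTop (𝓝 (ℓ n)))
    (hmod : (∃ σ : ℝ, 0 ≤ σ ∧ ∀ n, 9 / 10 * σ * β ^ n ≤ ‖ℓ n‖ ∧ ‖ℓ n‖ ≤ 11 / 10 * σ * β ^ n) ∨
      ∀ n, ‖ℓ n‖ ≤ β / 5 * β ^ n) (h0 : ‖X 0‖ ≤ 1 / 4) (h1 : 3 / 4 ≤ ‖X 1‖) :
    ∃ i < q, 5 / 4 < ‖X i‖ := by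
  classical
  have ha0 : a ≠ 0 := by
    rintro rfl
    rw [norm_zero] at ha
    have := pow_pos hβ k
    linarith
  have hβ2 : β ≤ 1 := by linarith
  have hex : ∃ n, ∀ m, n ≤ m → ‖X m‖ ≤ β ^ (m - n) := by
    obtain ⟨C, hC⟩ := hdec
    have h : Tendsto (fun m : ℕ => C * β ^ m) atTop (𝓝 (C * 0)) :=
      (tendsto_pow_atTop_nhds_zero_of_lt_one hβ.le (by linarith)).const_mul _
    rw [mul_zero] at h
    obtain ⟨n, hn⟩ := (h.eventually_le_const (show (0 : ℝ) < 1 by norm_num)).exists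
    refine ⟨n, fun m hm => (hC m).trans ?_⟩
    have e : β ^ m = β ^ n * β ^ (m - n) := by rw [← pow_add]; congr 1; omega
    rw [e, ← mul_assoc]
    have : 0 ≤ β ^ (m - n) := by positivity
    nlinarith
  have hG := Nat.find_spec hex
  have hmin := fun n (hn : n < Nat.find hex) => Nat.find_min hex hn
  set n0 := Nat.find hex with hn0
  clear_value n0
  rcases n0 with _ | n1
  · have := hG 1 (by omega)
    norm_num at this
    linarith
  have hnot := hmin n1 (by omega)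
  push Not at hnot
  obtain ⟨m, hm1, hm2⟩ := hnot
  have herr : ∀ n, n1 + 1 ≤ n + q → ‖X n - ℓ n‖ ≤ 2 * β ^ (D * (n + q - (n1 + 1))) := fun n hn =>
    err (by omega) (by omega) hβ hβ1 ha hX hG hn (hℓ n)
  have hsm : ∀ n, n1 + 2 ≤ n + q → ‖X n - ℓ n‖ ≤ 1 / 50 * β ^ (n + q - (n1 + 2)) := by
    intro n hn
    refine (herr n (by omega)).trans ?_
    have h2 : β ^ (D * (n + q - (n1 + 1))) ≤ β ^ ((n + q - (n1 + 2)) + 1) := by
      apply pow_le_pow_of_le_one hβ.le hβ2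
      have h3 : n + q - (n1 + 2) + 1 = n + q - (n1 + 1) := by omega
      rw [h3]
      have : 1 ≤ D := by omega
      nlinarith
    rw [pow_succ] at h2
    have : 0 ≤ β ^ (n + q - (n1 + 2)) := by positivity
    nlinarith
  have hlm : 1 / 2 * β ^ (m - n1) ≤ ‖ℓ m‖ := by
    have h2 := hsm m (by omega)
    have h3 : β ^ (m + q - (n1 + 2)) ≤ β ^ (m - n1) :=
      pow_le_pow_of_le_one hβ.le hβ2 (by omega)
    have h4 := norm_sub_norm_le (X m) (ℓ m)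
    have : 0 ≤ β ^ (m - n1) := by positivity
    nlinarith
  have em : β ^ m = β ^ n1 * β ^ (m - n1) := by rw [← pow_add]; congr 1; omega
  have hpm : 0 < β ^ (m - n1) := by positivity
  rcases hmod with ⟨σ, hσ, hmod⟩ | hmod
  swap
  · exfalso
    have h2 := hmod m
    have h3 : β ^ n1 ≤ 1 := pow_le_one₀ hβ.le hβ2
    have h4 : β ^ m ≤ β ^ (m - n1) := by rw [em]; nlinarith
    have h5 : β / 5 * β ^ m ≤ 1 / 5 * β ^ (m - n1) := by
      have : 0 ≤ β ^ m := by positivity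
      nlinarith
    linarith
  have hY : 9 / 20 ≤ σ * β ^ n1 := by
    have h2 := (hmod m).2
    rw [em] at h2
    have h3 : 1 / 2 * β ^ (m - n1) ≤ 11 / 10 * (σ * β ^ n1) * β ^ (m - n1) := by
      calc _ ≤ _ := hlm
        _ ≤ _ := h2
        _ = _ := by ring
    have h4 := le_of_mul_le_mul_right h3 hpm
    linarith
  rcases n1 with _ | M
  · exfalso
    have h2 := hsm 0 (by omega)
    have h3 : β ^ (0 + q - (0 + 2)) ≤ 1 := pow_le_one₀ hβ.le hβ2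
    have h4 := (hmod 0).1
    have h5 := norm_sub_norm_le (ℓ 0) (X 0)
    rw [norm_sub_rev] at h5
    simp only [pow_zero, mul_one] at h4 hY
    nlinarith
  have hW : 45 ≤ σ * β ^ M := by
    rw [pow_succ, ← mul_assoc] at hY
    have : 0 ≤ σ * β ^ M := by positivity
    nlinarith
  set W := σ * β ^ M with hWd
  have hYW : σ * β ^ (M + 1) = W * β := by rw [pow_succ, hWd]; ring
  rw [hYW] at hY
  have hXM : 8 / 10 * W ≤ ‖X M‖ := by
    have h2 := herr M (by omega)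
    have h3 : β ^ (D * (M + q - (M + 1 + 1))) ≤ 1 := pow_le_one₀ hβ.le hβ2
    have h4 := (hmod M).1
    have h5 := norm_sub_norm_le (ℓ M) (X M)
    rw [norm_sub_rev] at h5
    have h6 : 9 / 10 * σ * β ^ M = 9 / 10 * W := by rw [hWd]; ring
    rw [h6] at h4
    linarith
  have hXm : ∀ m, M < m → ‖X m‖ ≤ 20 / 9 * (W * β) := by
    intro m hm
    rcases (Nat.succ_le_of_lt hm).eq_or_lt with h2 | h2
    · have h3 : m = M + 1 := h2.symm
      rw [h3]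
      have h4 := hsm (M + 1) (by omega)
      have h5 : β ^ (M + 1 + q - (M + 1 + 2)) ≤ 1 := pow_le_one₀ hβ.le hβ2
      have h6 := (hmod (M + 1)).2
      have h7 := norm_sub_norm_le (X (M + 1)) (ℓ (M + 1))
      have h8 : 11 / 10 * σ * β ^ (M + 1) = 11 / 10 * (W * β) := by rw [← hYW]; ring
      rw [h8] at h6
      linarith
    · have h3 := hG m (by omega)
      have h4 : β ^ (m - (M + 1 + 1)) ≤ 1 := pow_le_one₀ hβ.le hβ2
      linarith
  have hu : (100 : ℝ) ≤ β⁻¹ := by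
    rw [le_inv_comm₀ (by norm_num) hβ]
    linarith
  obtain ⟨c1, c2⟩ := K_cond hu (by omega : 1 ≤ k) hD
  have hββ : β * β⁻¹ = 1 := mul_inv_cancel₀ hβ.ne'
  have hWβ : 9 / 20 * β⁻¹ ≤ W := by
    calc 9 / 20 * β⁻¹ ≤ (W * β) * β⁻¹ := by gcongr
      _ = W := by rw [mul_assoc, hββ, mul_one]
  have hdom : Dom (β⁻¹ / 3) X M := by
    constructor
    · linarith
    · intro m hm
      have h2 := hXm m hm
      calc β⁻¹ / 3 * ‖X m‖ ≤ β⁻¹ / 3 * (20 / 9 * (W * β)) := by gcongr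
        _ = 20 / 27 * W * (β * β⁻¹) := by ring
        _ = 20 / 27 * W := by rw [hββ, mul_one]
        _ ≤ _ := by linarith
  have hM : M = M % q + q * (M / q) := (Nat.mod_add_div M q).symm
  rw [hM] at hdom
  have hna : ‖a‖⁻¹ = β⁻¹ ^ k := by rw [ha, inv_pow]
  have hfin := dom_all hq (by omega) ha0 (by linarith) (by rw [hna]; exact c1) c2 hX _ _ hdom
  refine ⟨M % q, Nat.mod_lt _ (by omega), ?_⟩
  have := hfin.1
  linarith

end Pool.Agent.KS6_4.EH
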