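import Pool.Agent.KS6_4.EH.Lin

/-!
# Shift-like automorphisms of `ℂ^k`
-/

set_option autoImplicit false

namespace Pool.Agent.KS6_4.EH

open Filter Topology Metric Set

/-- The shift-like automorphism
`(x_0, …, x_{k-1}) ↦ (x_1, …, x_{k-1}, a (x_0 + x_q ^ D))` of `ℂ^k`. -/
def shiftLike {k : ℕ} (q D : ℕ) (hq : q < k) (a : ℂ) (x : Fin k → ℂ) : Fin k → ℂ := fun i =>
  if h : (i : ℕ) + 1 < k then x ⟨i + 1, h⟩ else a * (x ⟨0, by omega⟩ + x ⟨q, hq⟩ ^ D)

/-- its inverse `(x_0, …, x_{k-1}) ↦ (a⁻¹ x_{k-1} - x_{q-1} ^ D, x_0, …, x_{k-2})` -/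
noncomputable def shiftInv {k : ℕ} (q D : ℕ) (hq : q < k) (a : ℂ) (x : Fin k → ℂ) : Fin k → ℂ :=
  fun i => if (i : ℕ) = 0 then a⁻¹ * x ⟨k - 1, by omega⟩ - x ⟨q - 1, by omega⟩ ^ D
  else x ⟨i - 1, by omega⟩

/-- the orbit, as a sequence -/
def sq {k : ℕ} (q D : ℕ) (hq : q < k) (a : ℂ) (x : Fin k → ℂ) (n : ℕ) : ℂ :=
  (shiftLike q D hq a)^[n] x ⟨0, by omega⟩

/-- the linear part of the inverse -/
noncomputable def linInv (k : ℕ) (hk : 0 < k) (a : ℂ) : (Fin k → ℂ) →L[ℂ] (Fin k → ℂ) :=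
  ContinuousLinearMap.pi fun i => if (i : ℕ) = 0 then
    a⁻¹ • ContinuousLinearMap.proj (R := ℂ) (φ := fun _ : Fin k => ℂ) ⟨k - 1, by omega⟩
  else ContinuousLinearMap.proj (R := ℂ) (φ := fun _ : Fin k => ℂ) ⟨i - 1, by omega⟩

lemma linInv_apply {k : ℕ} {a : ℂ} (hk : 0 < k) (x : Fin k → ℂ) (i : Fin k) :
    linInv k hk a x i = if (i : ℕ) = 0 then a⁻¹ * x ⟨k - 1, by omega⟩ else x ⟨i - 1, by omega⟩ := by
  show (if (i : ℕ) = 0 then
    a⁻¹ • ContinuousLinearMap.proj (R := ℂ) (φ := fun _ : Fin k => ℂ) ⟨k - 1, by omega⟩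
    else ContinuousLinearMap.proj (R := ℂ) (φ := fun _ : Fin k => ℂ) ⟨i - 1, by omega⟩) x = _
  split_ifs with h
  · simp
  · simp

lemma linInv_iter {k : ℕ} {a : ℂ} (hk : 0 < k) (j : ℕ) (hj : j ≤ k) (x : Fin k → ℂ) (i : Fin k) :
    (linInv k hk a)^[j] x i = if h : (i : ℕ) < j then a⁻¹ * x ⟨i + k - j, by omega⟩
      else x ⟨i - j, by omega⟩ := by
  induction j generalizing i with
  | zero => simp
  | succ j ih =>
    rw [Function.iterate_succ_apply', linInv_apply]
    have hi := i.2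
    by_cases h0 : (i : ℕ) = 0
    · rw [if_pos h0, dif_pos (by omega), ih (by omega), dif_neg (by simp; omega)]
      congr 2
      exact Fin.ext (by simp; omega)
    · rw [if_neg h0, ih (by omega)]
      by_cases h1 : (i : ℕ) < j + 1
      · rw [dif_pos (by simp; omega), dif_pos h1]
        congr 2
        exact Fin.ext (by simp; omega)
      · rw [dif_neg (by simp; omega), dif_neg h1]
        congr 1
        exact Fin.ext (by simp; omega)

lemma linInv_pow {k : ℕ} {a : ℂ} (hk : 0 < k) : (linInv k hk a) ^ k = a⁻¹ • ContinuousLinearMap.id ℂ (Fin k → ℂ) := by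
  ext1 x
  rw [FunLike.coe_pow_eq_iterate]
  ext i
  rw [linInv_iter hk k le_rfl, dif_pos i.2]
  simp

variable {k : ℕ} {q D : ℕ} {hq : q < k} {a : ℂ}

lemma shift_inv (ha : a ≠ 0) (hq0 : 1 ≤ q) (x : Fin k → ℂ) :
    shiftLike q D hq a (shiftInv q D hq a x) = x := by
  ext i
  unfold shiftLike
  split_ifs with h
  · simp [shiftInv]
  · have hi : (i : ℕ) = k - 1 := by have := i.2; omega
    have hq1 : ¬ q = 0 := by omega
    simp only [shiftInv, if_true, if_neg hq1]
    rw [sub_add_cancel, ← mul_assoc, mul_inv_cancel₀ ha, one_mul]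
    congr 1
    exact Fin.ext hi.symm

lemma inv_shift (ha : a ≠ 0) (hq0 : 1 ≤ q) (x : Fin k → ℂ) :
    shiftInv q D hq a (shiftLike q D hq a x) = x := by
  ext i
  unfold shiftInv
  split_ifs with h
  · have h1 : ¬ (k - 1 + 1 < k) := by omega
    have h2 : q - 1 + 1 < k := by omega
    simp only [shiftLike, dif_neg h1, dif_pos h2]
    rw [← mul_assoc, inv_mul_cancel₀ ha, one_mul]
    have e : (⟨q - 1 + 1, h2⟩ : Fin k) = ⟨q, hq⟩ := Fin.ext (by simp; omega)
    rw [e, add_sub_cancel_right]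
    congr 1
    exact Fin.ext h.symm
  · have h1 : (i : ℕ) - 1 + 1 < k := by have := i.2; omega
    simp only [shiftLike, dif_pos h1]
    congr 1
    exact Fin.ext (by simp; omega)

lemma iter_apply (i : ℕ) (hi : i < k) (x : Fin k → ℂ) :
    (shiftLike q D hq a)^[i] x ⟨0, by omega⟩ = x ⟨i, hi⟩ := by
  induction i generalizing x with
  | zero => rfl
  | succ i ih =>
    rw [Function.iterate_succ_apply, ih (by omega)]
    unfold shiftLike
    rw [dif_pos hi]

lemma sq_add (x : Fin k → ℂ) (n : ℕ) (i : Fin k) :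
    (shiftLike q D hq a)^[n] x i = sq q D hq a x (n + i) := by
  unfold sq
  rw [add_comm n, Function.iterate_add_apply, iter_apply _ i.2]

lemma sq_lt (x : Fin k → ℂ) {n : ℕ} (hn : n < k) : sq q D hq a x n = x ⟨n, hn⟩ :=
  iter_apply n hn x

lemma sq_iter (x : Fin k → ℂ) (m n : ℕ) :
    sq q D hq a ((shiftLike q D hq a)^[m] x) n = sq q D hq a x (m + n) := by
  unfold sq
  rw [add_comm m, Function.iterate_add_apply]

lemma sq_rec (x : Fin k → ℂ) (n : ℕ) :
    sq q D hq a x (n + k) = a * (sq q D hq a x n + sq q D hq a x (n + q) ^ D) := by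
  have hk : k - 1 < k := by omega
  have h1 : sq q D hq a x (n + k) = (shiftLike q D hq a)^[n + 1] x ⟨k - 1, hk⟩ := by
    rw [sq_add]
    congr 1
    simp only
    omega
  have h2 : ¬ (k - 1 + 1 < k) := by omega
  have h3 : ∀ y : Fin k → ℂ, shiftLike q D hq a y ⟨k - 1, hk⟩ =
      a * (y ⟨0, by omega⟩ + y ⟨q, hq⟩ ^ D) := by
    intro y
    simp only [shiftLike, dif_neg h2]
  rw [h1, Function.iterate_succ_apply', h3, sq_add, sq_add]
  simp

lemma shiftInv_contDiff : ContDiff ℂ 2 (shiftInv (k := k) q D hq a) := by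
  rw [contDiff_pi]
  intro i
  unfold shiftInv
  split_ifs with h
  · fun_prop
  · fun_prop

lemma shiftLike_contDiff : ContDiff ℂ 2 (shiftLike (k := k) q D hq a) := by
  rw [contDiff_pi]
  intro i
  unfold shiftLike
  split_ifs with h
  · fun_prop
  · fun_prop

lemma shiftInv_hasFDerivAt (hD : 2 ≤ D) :
    HasFDerivAt (shiftInv (k := k) q D hq a) (linInv k (by omega) a) 0 := by
  rw [hasFDerivAt_pi']
  intro i
  have e : ContinuousLinearMap.comp (ContinuousLinearMap.proj i) (linInv k (by omega) a) =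
      if (i : ℕ) = 0 then
        a⁻¹ • ContinuousLinearMap.proj (R := ℂ) (φ := fun _ : Fin k => ℂ) ⟨k - 1, by omega⟩
      else ContinuousLinearMap.proj (R := ℂ) (φ := fun _ : Fin k => ℂ) ⟨i - 1, by omega⟩ := rfl
  rw [e]
  unfold shiftInv
  split_ifs with h
  · have h1 : HasFDerivAt (fun x : Fin k → ℂ => a⁻¹ * x ⟨k - 1, by omega⟩)
        (a⁻¹ • ContinuousLinearMap.proj (R := ℂ) (φ := fun _ : Fin k => ℂ) ⟨k - 1, by omega⟩) 0 :=
      (hasFDerivAt_apply _ _).const_mul _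
    have h2 : HasFDerivAt (fun x : Fin k → ℂ => x ⟨q - 1, by omega⟩ ^ D)
        (0 : (Fin k → ℂ) →L[ℂ] ℂ) 0 := by
      have h3 := (hasFDerivAt_apply (𝕜 := ℂ) (F' := fun _ : Fin k => ℂ) ⟨q - 1, by omega⟩
        (0 : Fin k → ℂ)).pow D
      refine h3.congr_fderiv ?_
      have : D - 1 ≠ 0 := by omega
      ext1 x
      simp [this]
    have h4 := h1.fun_sub h2
    rw [sub_zero] at h4
    exact h4
  · exact hasFDerivAt_apply _ _

lemma contDiff_iter {E : Type*} [NormedAddCommGroup E] [NormedSpace ℂ E] {f : E → E}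
    (hf : ContDiff ℂ 2 f) (n : ℕ) : ContDiff ℂ 2 f^[n] := by
  induction n with
  | zero => exact contDiff_id
  | succ n ih =>
    rw [Function.iterate_succ']
    exact hf.comp ih

lemma shiftInv_zero (hD : 2 ≤ D) : shiftInv (k := k) q D hq a 0 = 0 := by
  ext i
  unfold shiftInv
  have : D ≠ 0 := by omega
  split_ifs <;> simp [this]

/-- The linearization of the shift-like map at its attracting fixed point. -/
theorem exists_Phi (hD : 2 ≤ D) (hq0 : 1 ≤ q) (ha : a ≠ 0) (ha1 : ‖a‖ < 1) :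
    ∃ Φ : (Fin k → ℂ) → Fin k → ℂ, Differentiable ℂ Φ ∧ Φ 0 = 0 ∧
      HasFDerivAt Φ (ContinuousLinearMap.id ℂ (Fin k → ℂ)) 0 ∧
      (∀ y m (i : Fin k), sq q D hq a (Φ y) (k * m + i) = Φ (a ^ m • y) i) ∧
      Function.Injective Φ ∧ ∀ x, Function.Injective (fderiv ℂ Φ x) := by
  have hk : 0 < k := by omega
  set g := (shiftInv (k := k) q D hq a)^[k] with hg
  have hg0 : g 0 = 0 := Function.iterate_fixed (shiftInv_zero hD) k
  have hgd : HasFDerivAt g (a⁻¹ • ContinuousLinearMap.id ℂ (Fin k → ℂ)) 0 := by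
    have := (shiftInv_hasFDerivAt (k := k) (q := q) (hq := hq) (a := a) hD).iterate
      (shiftInv_zero hD) k
    rwa [linInv_pow] at this
  have hgc : ContDiff ℂ 2 g := contDiff_iter shiftInv_contDiff k
  have hn : 1 < ‖a⁻¹‖ := by
    rw [norm_inv]
    exact one_lt_inv₀ (norm_pos_iff.2 ha) |>.2 ha1
  obtain ⟨Φ, h1, h2, h3, h4⟩ := exists_lin hgc hg0 hn hgd
  have h5 : ∀ y, (shiftLike q D hq a)^[k] (Φ y) = Φ (a • y) := by
    intro y
    have h6 := h4 (a • y)
    rw [smul_smul, inv_mul_cancel₀ ha, one_smul] at h6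
    rw [h6, hg]
    exact (Function.LeftInverse.iterate (fun x => shift_inv ha hq0 x) k) _
  have h6 : ∀ m y, (shiftLike q D hq a)^[k * m] (Φ y) = Φ (a ^ m • y) := by
    intro m
    induction m with
    | zero => intro y; simp
    | succ m ih =>
      intro y
      rw [mul_add, mul_one, Function.iterate_add_apply, h5, ih, smul_smul, pow_succ]
  have h7 := lin_inj (f := (shiftLike q D hq a)^[k]) hn (hgc.differentiable (by norm_num))
    ((contDiff_iter shiftLike_contDiff k).differentiable (by norm_num))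
    (fun x => (Function.LeftInverse.iterate (fun x => shift_inv ha hq0 x) k) x) h1 h3 h4
  refine ⟨Φ, h1, h2, h3, fun y m i => ?_, h7⟩
  rw [← sq_add, h6]

end Pool.Agent.KS6_4.EH
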