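import Pool.Graph.R_seed8.H72R3.HJ.Defs
import Pool.Agent.KS6_4.EH.Sh

/-!
# Iterates of shift-like maps are of Henon type
-/

set_option autoImplicit false

namespace Pool.Agent.KS6_4.EH

open MvPolynomial
open Pool.Agent.H72R3.HJ (PolyMap toFun degree indetCone IsHenonType)

variable {k : ℕ}

/-- `P` is `c X_i ^ e` plus terms of smaller degree -/
def Top (P : MvPolynomial (Fin k) ℂ) (e : ℕ) (c : ℂ) (i : Fin k) : Prop :=
  ∃ R : MvPolynomial (Fin k) ℂ, P = C c * X i ^ e + R ∧ R.totalDegree < e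

lemma deg_mono (c : ℂ) (i : Fin k) (e : ℕ) :
    (C c * X i ^ e : MvPolynomial (Fin k) ℂ).totalDegree ≤ e := by
  refine (totalDegree_mul _ _).trans ?_
  rw [totalDegree_C, zero_add]
  refine (totalDegree_pow _ _).trans ?_
  rw [totalDegree_X, mul_one]

lemma Top.deg_le {P : MvPolynomial (Fin k) ℂ} {e : ℕ} {c : ℂ} {i : Fin k} (h : Top P e c i) :
    P.totalDegree ≤ e := by
  obtain ⟨R, rfl, hR⟩ := h
  exact (totalDegree_add _ _).trans (max_le (deg_mono c i e) hR.le)

lemma Top.hc {P : MvPolynomial (Fin k) ℂ} {e : ℕ} {c : ℂ} {i : Fin k} (h : Top P e c i) :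
    homogeneousComponent e P = C c * X i ^ e := by
  obtain ⟨R, rfl, hR⟩ := h
  have h1 : (C c * X i ^ e : MvPolynomial (Fin k) ℂ).IsHomogeneous e := by
    have := (isHomogeneous_C (Fin k) c).mul ((isHomogeneous_X ℂ i).pow e)
    rwa [zero_add, one_mul] at this
  rw [map_add, homogeneousComponent_eq_zero e R hR, add_zero,
    homogeneousComponent_of_mem ((mem_homogeneousSubmodule e _).2 h1), if_pos rfl]

lemma Top.pow {P : MvPolynomial (Fin k) ℂ} {e : ℕ} {c : ℂ} {i : Fin k} (h : Top P e c i) (n : ℕ) :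
    Top (P ^ (n + 1)) (e * (n + 1)) (c ^ (n + 1)) i := by
  induction n with
  | zero => simpa using h
  | succ n ih =>
    obtain ⟨R, hP, hR⟩ := h
    obtain ⟨R', hP', hR'⟩ := ih
    refine ⟨C (c ^ (n + 1)) * X i ^ (e * (n + 1)) * R + R' * (C c * X i ^ e) + R' * R, ?_, ?_⟩
    · rw [pow_succ P, hP']
      nth_rewrite 1 [hP]
      rw [pow_succ c (n + 1), C_mul, mul_add e (n + 1) 1, mul_one, pow_add]
      ring
    · have h1 : (C (c ^ (n + 1)) * X i ^ (e * (n + 1)) * R).totalDegree < e * (n + 1 + 1) := by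
        refine (totalDegree_mul _ _).trans_lt ?_
        have := deg_mono (c ^ (n + 1)) i (e * (n + 1))
        rw [mul_add e (n + 1) 1, mul_one]
        omega
      have h2 : (R' * (C c * X i ^ e)).totalDegree < e * (n + 1 + 1) := by
        refine (totalDegree_mul _ _).trans_lt ?_
        have := deg_mono c i e
        rw [mul_add e (n + 1) 1, mul_one]
        omega
      have h3 : (R' * R).totalDegree < e * (n + 1 + 1) := by
        refine (totalDegree_mul _ _).trans_lt ?_
        rw [mul_add e (n + 1) 1, mul_one]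
        omega
      refine (totalDegree_add _ _).trans_lt (max_lt ?_ h3)
      exact (totalDegree_add _ _).trans_lt (max_lt h1 h2)

/-- the polynomial iterates: `PG n` is the `n (k - q)`-th iterate -/
noncomputable def PG (q D : ℕ) (hq : q < k) (a : ℂ) : ℕ → PolyMap k
  | 0 => fun i => X i
  | n + 1 => fun i => if h : (i : ℕ) < q then PG q D hq a n ⟨i + (k - q), by omega⟩
      else C a * (PG q D hq a n ⟨i - q, by omega⟩ + PG q D hq a n i ^ D)

/-- the polynomial inverse iterates -/
noncomputable def QH (q D : ℕ) (hq : q < k) (a : ℂ) : ℕ → PolyMap k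
  | 0 => fun i => X i
  | n + 1 => fun i => if h : (i : ℕ) < q then
      C a⁻¹ * QH q D hq a n ⟨i + (k - q), by omega⟩ - QH q D hq a n i ^ D
      else QH q D hq a n ⟨i - q, by omega⟩

variable {q D : ℕ} {hq : q < k} {a : ℂ}

lemma PG_pos (n : ℕ) {i : Fin k} (h : (i : ℕ) < q) :
    PG q D hq a (n + 1) i = PG q D hq a n ⟨i + (k - q), by omega⟩ := by
  simp only [PG]
  rw [dif_pos h]

lemma PG_neg (n : ℕ) {i : Fin k} (h : ¬ (i : ℕ) < q) :
    PG q D hq a (n + 1) i =
      C a * (PG q D hq a n ⟨i - q, by omega⟩ + PG q D hq a n i ^ D) := by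
  simp only [PG]
  rw [dif_neg h]

lemma QH_pos (n : ℕ) {i : Fin k} (h : (i : ℕ) < q) :
    QH q D hq a (n + 1) i =
      C a⁻¹ * QH q D hq a n ⟨i + (k - q), by omega⟩ - QH q D hq a n i ^ D := by
  simp only [QH]
  rw [dif_pos h]

lemma QH_neg (n : ℕ) {i : Fin k} (h : ¬ (i : ℕ) < q) :
    QH q D hq a (n + 1) i = QH q D hq a n ⟨i - q, by omega⟩ := by
  simp only [QH]
  rw [dif_neg h]

lemma toFun_PG (n : ℕ) (z : Fin k → ℂ) (i : Fin k) :
    toFun (PG q D hq a n) z i = sq q D hq a z ((k - q) * n + i) := by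
  induction n generalizing i with
  | zero => simp [toFun, PG, sq_lt _ i.2]
  | succ n ih =>
    by_cases h : (i : ℕ) < q
    · have e : toFun (PG q D hq a (n + 1)) z i =
          toFun (PG q D hq a n) z ⟨i + (k - q), by omega⟩ := by
        unfold toFun
        rw [PG_pos n h]
      rw [e, ih]
      congr 1
      simp only
      ring
    · have e : toFun (PG q D hq a (n + 1)) z i =
          a * (toFun (PG q D hq a n) z ⟨i - q, by omega⟩ + toFun (PG q D hq a n) z i ^ D) := by
        unfold toFun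
        rw [PG_neg n h]
        simp
      rw [e, ih, ih]
      have h1 : (k - q) * (n + 1) + (i : ℕ) = ((k - q) * n + ((i : ℕ) - q)) + k := by
        rw [mul_add, mul_one]
        omega
      rw [h1, sq_rec]
      have h2 : (k - q) * n + ((i : ℕ) - q) + q = (k - q) * n + i := by omega
      rw [h2]

lemma toFun_PG_eq (n : ℕ) : toFun (PG q D hq a n) = (shiftLike q D hq a)^[(k - q) * n] := by
  ext z i
  rw [toFun_PG, sq_add]

lemma toFun_QH (ha : a ≠ 0) (n : ℕ) (x : Fin k → ℂ) :
    toFun (QH q D hq a n) ((shiftLike q D hq a)^[q * n] x) = x := by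
  induction n generalizing x with
  | zero =>
    ext i
    simp [toFun, QH]
  | succ n ih =>
    have e0 : (shiftLike q D hq a)^[q * (n + 1)] x =
        (shiftLike q D hq a)^[q * n] ((shiftLike q D hq a)^[q] x) := by
      rw [← Function.iterate_add_apply, mul_add, mul_one]
    ext i
    have h0 : ∀ j, toFun (QH q D hq a n) ((shiftLike q D hq a)^[q * (n + 1)] x) j =
        sq q D hq a x (q + j) := by
      intro j
      rw [e0, ih, sq_add]
    by_cases h : (i : ℕ) < q
    · have e : toFun (QH q D hq a (n + 1)) ((shiftLike q D hq a)^[q * (n + 1)] x) i =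
          a⁻¹ * toFun (QH q D hq a n) ((shiftLike q D hq a)^[q * (n + 1)] x)
            ⟨i + (k - q), by omega⟩ -
          toFun (QH q D hq a n) ((shiftLike q D hq a)^[q * (n + 1)] x) i ^ D := by
        unfold toFun
        rw [QH_pos n h]
        simp
      rw [e, h0, h0]
      have h1 : q + (((⟨i + (k - q), by omega⟩ : Fin k)) : ℕ) = i + k := by
        simp only
        omega
      rw [h1, sq_rec, ← mul_assoc, inv_mul_cancel₀ ha, one_mul, add_comm q, add_sub_cancel_right,
        sq_lt _ i.2]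
    · have e : toFun (QH q D hq a (n + 1)) ((shiftLike q D hq a)^[q * (n + 1)] x) i =
          toFun (QH q D hq a n) ((shiftLike q D hq a)^[q * (n + 1)] x) ⟨i - q, by omega⟩ := by
        unfold toFun
        rw [QH_neg n h]
      rw [e, h0]
      have h1 : q + (((⟨i - q, by omega⟩ : Fin k)) : ℕ) = i := by
        simp only
        omega
      rw [h1, sq_lt _ i.2]

lemma PG_deg (hD : 2 ≤ D) (ha : a ≠ 0) (n : ℕ) :
    (∀ i, (PG q D hq a n i).totalDegree ≤ D ^ n) ∧
    ∀ i : Fin k, q ≤ (i : ℕ) → ∃ c, c ≠ 0 ∧ Top (PG q D hq a n i) (D ^ n) c i := by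
  induction n with
  | zero =>
    refine ⟨fun i => by simp [PG], fun i _ => ⟨1, one_ne_zero, 0, ?_, ?_⟩⟩
    · simp [PG]
    · simp
  | succ n ih =>
    obtain ⟨h1, h2⟩ := ih
    have hlt : D ^ n < D ^ (n + 1) := Nat.pow_lt_pow_right (by omega) (by omega)
    have key : ∀ i : Fin k, q ≤ (i : ℕ) → ∃ c, c ≠ 0 ∧ Top (PG q D hq a (n + 1) i) (D ^ (n + 1)) c i := by
      intro i hi
      obtain ⟨c, hc, hT⟩ := h2 i hi
      obtain ⟨D', rfl⟩ : ∃ D', D = D' + 1 := ⟨D - 1, by omega⟩
      obtain ⟨R, hR, hRd⟩ := hT.pow D'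
      refine ⟨a * c ^ (D' + 1), mul_ne_zero ha (pow_ne_zero _ hc),
        C a * (PG q (D' + 1) hq a n ⟨i - q, by omega⟩ + R), ?_, ?_⟩
      · rw [PG_neg n (by omega), hR, C_mul, pow_succ (D' + 1) n]
        ring
      · refine (totalDegree_mul _ _).trans_lt ?_
        rw [totalDegree_C, zero_add]
        refine (totalDegree_add _ _).trans_lt (max_lt ((h1 _).trans_lt hlt) ?_)
        rw [pow_succ]
        exact hRd
    refine ⟨fun i => ?_, key⟩
    by_cases h : (i : ℕ) < q
    · rw [PG_pos n h]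
      exact (h1 _).trans hlt.le
    · obtain ⟨c, _, hT⟩ := key i (by omega)
      exact hT.deg_le

lemma QH_deg (hD : 2 ≤ D) (n : ℕ) :
    (∀ i, (QH q D hq a n i).totalDegree ≤ D ^ n) ∧
    ∀ i : Fin k, (i : ℕ) < q → ∃ c, c ≠ 0 ∧ Top (QH q D hq a n i) (D ^ n) c i := by
  induction n with
  | zero =>
    refine ⟨fun i => by simp [QH], fun i _ => ⟨1, one_ne_zero, 0, ?_, ?_⟩⟩
    · simp [QH]
    · simp
  | succ n ih =>
    obtain ⟨h1, h2⟩ := ih
    have hlt : D ^ n < D ^ (n + 1) := Nat.pow_lt_pow_right (by omega) (by omega)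
    have key : ∀ i : Fin k, (i : ℕ) < q → ∃ c, c ≠ 0 ∧ Top (QH q D hq a (n + 1) i) (D ^ (n + 1)) c i := by
      intro i hi
      obtain ⟨c, hc, hT⟩ := h2 i hi
      obtain ⟨D', rfl⟩ : ∃ D', D = D' + 1 := ⟨D - 1, by omega⟩
      obtain ⟨R, hR, hRd⟩ := hT.pow D'
      refine ⟨-c ^ (D' + 1), neg_ne_zero.2 (pow_ne_zero _ hc),
        C a⁻¹ * QH q (D' + 1) hq a n ⟨i + (k - q), by omega⟩ - R, ?_, ?_⟩
      · rw [QH_pos n hi, hR, C_neg, pow_succ (D' + 1) n]
        ring
      · refine (totalDegree_sub _ _).trans_lt (max_lt ?_ ?_)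
        · refine (totalDegree_mul _ _).trans_lt ?_
          rw [totalDegree_C, zero_add]
          exact (h1 _).trans_lt hlt
        · rw [pow_succ]
          exact hRd
    refine ⟨fun i => ?_, key⟩
    by_cases h : (i : ℕ) < q
    · obtain ⟨c, _, hT⟩ := key i h
      exact hT.deg_le
    · rw [QH_neg n h]
      exact (h1 _).trans hlt.le

lemma le_degree {R : PolyMap k} {e : ℕ} (i : Fin k) (h : homogeneousComponent e (R i) ≠ 0) :
    e ≤ degree R := by
  by_contra hcon
  push Not at hcon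
  apply h
  apply homogeneousComponent_eq_zero
  refine lt_of_le_of_lt ?_ hcon
  exact Finset.le_sup (f := fun i => (R i).totalDegree) (Finset.mem_univ i)

lemma mono_ne {c : ℂ} (hc : c ≠ 0) (i : Fin k) (e : ℕ) :
    (C c * X i ^ e : MvPolynomial (Fin k) ℂ) ≠ 0 :=
  mul_ne_zero (by rwa [Ne, C_eq_zero]) (pow_ne_zero _ (X_ne_zero i))

lemma degree_PG (hD : 2 ≤ D) (ha : a ≠ 0) (n : ℕ) : degree (PG q D hq a n) = D ^ n := by
  apply le_antisymm
  · exact Finset.sup_le fun i _ => (PG_deg hD ha n).1 i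
  · obtain ⟨c, hc, hT⟩ := (PG_deg (hq := hq) hD ha n).2 ⟨q, hq⟩ le_rfl
    apply le_degree ⟨q, hq⟩
    rw [hT.hc]
    exact mono_ne hc _ _

lemma degree_QH (hD : 2 ≤ D) (hq0 : 0 < q) (n : ℕ) : degree (QH q D hq a n) = D ^ n := by
  apply le_antisymm
  · exact Finset.sup_le fun i _ => (QH_deg hD n).1 i
  · obtain ⟨c, hc, hT⟩ := (QH_deg (hq := hq) (a := a) hD n).2 ⟨0, by omega⟩ hq0
    apply le_degree ⟨0, by omega⟩
    rw [hT.hc]
    exact mono_ne hc _ _

lemma indet_PG (hD : 2 ≤ D) (ha : a ≠ 0) (n : ℕ) :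
    indetCone (PG q D hq a (n + 1)) = {z | ∀ i : Fin k, q ≤ (i : ℕ) → z i = 0} := by
  unfold indetCone
  rw [degree_PG hD ha]
  ext z
  simp only [Set.mem_ofPred_eq]
  have h0 : D ^ (n + 1) ≠ 0 := by positivity
  constructor
  · intro h i hi
    obtain ⟨c, hc, hT⟩ := (PG_deg (hq := hq) hD ha (n + 1)).2 i hi
    have := h i
    rw [hT.hc] at this
    rw [map_mul, map_pow, eval_C, eval_X] at this
    exact pow_eq_zero_iff h0 |>.1 ((mul_eq_zero.1 this).resolve_left hc)
  · intro h i
    by_cases hi : (i : ℕ) < q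
    · have : homogeneousComponent (D ^ (n + 1)) (PG q D hq a (n + 1) i) = 0 := by
        apply homogeneousComponent_eq_zero
        rw [PG_pos n hi]
        exact ((PG_deg hD ha n).1 _).trans_lt (Nat.pow_lt_pow_right (by omega) (by omega))
      rw [this, map_zero]
    · obtain ⟨c, hc, hT⟩ := (PG_deg (hq := hq) hD ha (n + 1)).2 i (by omega)
      rw [hT.hc, map_mul, map_pow, eval_X, h i (by omega), zero_pow h0, mul_zero]

lemma indet_QH (hD : 2 ≤ D) (hq0 : 0 < q) (n : ℕ) :
    indetCone (QH q D hq a (n + 1)) = {z | ∀ i : Fin k, (i : ℕ) < q → z i = 0} := by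
  unfold indetCone
  rw [degree_QH hD hq0]
  ext z
  simp only [Set.mem_ofPred_eq]
  have h0 : D ^ (n + 1) ≠ 0 := by positivity
  constructor
  · intro h i hi
    obtain ⟨c, hc, hT⟩ := (QH_deg (hq := hq) (a := a) hD (n + 1)).2 i hi
    have := h i
    rw [hT.hc] at this
    rw [map_mul, map_pow, eval_C, eval_X] at this
    exact pow_eq_zero_iff h0 |>.1 ((mul_eq_zero.1 this).resolve_left hc)
  · intro h i
    by_cases hi : (i : ℕ) < q
    · obtain ⟨c, hc, hT⟩ := (QH_deg (hq := hq) (a := a) hD (n + 1)).2 i hi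
      rw [hT.hc, map_mul, map_pow, eval_X, h i hi, zero_pow h0, mul_zero]
    · have : homogeneousComponent (D ^ (n + 1)) (QH q D hq a (n + 1) i) = 0 := by
        apply homogeneousComponent_eq_zero
        rw [QH_neg n hi]
        exact ((QH_deg hD n).1 _).trans_lt (Nat.pow_lt_pow_right (by omega) (by omega))
      rw [this, map_zero]

lemma exists_sub {s : ℕ} (σ : Fin s → Fin k) (hσ : Function.Injective σ) :
    ∃ W : Submodule ℂ (Fin k → ℂ), (W : Set (Fin k → ℂ)) = {z | ∀ j, z (σ j) = 0} ∧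
      Module.finrank ℂ W = k - s := by
  refine ⟨LinearMap.ker (LinearMap.funLeft ℂ ℂ σ), ?_, ?_⟩
  · ext z
    simp only [SetLike.mem_coe, LinearMap.mem_ker, Set.mem_ofPred_eq]
    constructor
    · intro h j
      exact congrFun h j
    · intro h
      ext j
      exact h j
  · have h := LinearMap.finrank_range_add_finrank_ker (LinearMap.funLeft ℂ ℂ σ)
    have hs : Function.Surjective (LinearMap.funLeft ℂ ℂ σ) :=
      LinearMap.funLeft_surjective_of_injective ℂ ℂ σ hσ
    rw [LinearMap.range_eq_top.2 hs, finrank_top] at h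
    simp at h
    omega

theorem isHenon (hD : 2 ≤ D) (ha : a ≠ 0) (hq0 : 0 < q) (p : ℕ) (hp : p + q = k) (hp1 : 1 ≤ p) :
    IsHenonType (PG q D hq a q) (QH q D hq a p) p := by
  have hkq : k - q = p := by omega
  obtain ⟨q', rfl⟩ : ∃ q', q = q' + 1 := ⟨q - 1, by omega⟩
  obtain ⟨p', rfl⟩ : ∃ p', p = p' + 1 := ⟨p - 1, by omega⟩
  have hi1 := indet_PG (hq := hq) hD ha q'
  have hi2 := indet_QH (hq := hq) (a := a) hD hq0 p'
  have hinv : ∀ z, toFun (QH (q' + 1) D hq a (p' + 1)) (toFun (PG (q' + 1) D hq a (q' + 1)) z) = z := by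
    intro z
    rw [toFun_PG_eq, hkq, mul_comm, toFun_QH ha]
  refine ⟨hinv, ?_, ?_, ?_, hp1, by omega, ?_, ?_⟩
  · intro z
    have h1 : z = toFun (PG (q' + 1) D hq a (q' + 1))
        ((shiftInv (q' + 1) D hq a)^[(k - (q' + 1)) * (q' + 1)] z) := by
      rw [toFun_PG_eq]
      exact ((Function.LeftInverse.iterate (fun x => shift_inv ha hq0 x) _) z).symm
    rw [h1, hinv, ← h1]
  · rw [degree_PG hD ha]
    calc 2 ≤ D := hD
      _ = D ^ 1 := (pow_one D).symm
      _ ≤ D ^ (q' + 1) := Nat.pow_le_pow_right (by omega) (by omega)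
  · rw [hi1, hi2]
    ext z
    simp only [Set.mem_inter_iff, Set.mem_ofPred_eq, Set.mem_singleton_iff]
    constructor
    · rintro ⟨h1, h2⟩
      ext i
      by_cases hi : (i : ℕ) < q' + 1
      · exact h2 i hi
      · exact h1 i (by omega)
    · rintro rfl
      simp
  · obtain ⟨W, h1, h2⟩ := exists_sub (k := k) (s := p' + 1)
      (fun j => ⟨q' + 1 + j, by omega⟩) (fun i j h => by
        have := congrArg Fin.val h
        simp only at this
        exact Fin.ext (by omega))
    refine ⟨W, ?_, h2⟩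
    rw [h1, hi1]
    ext z
    simp only [Set.mem_ofPred_eq]
    constructor
    · intro h i hi
      have := h ⟨i - (q' + 1), by omega⟩
      convert this using 2
      exact Fin.ext (by simp only; omega)
    · intro h j
      exact h _ (by simp)
  · obtain ⟨W, h1, h2⟩ := exists_sub (k := k) (s := q' + 1)
      (fun j => ⟨j, by omega⟩) (fun i j h => by
        have := congrArg Fin.val h
        simp only at this
        exact Fin.ext this)
    refine ⟨W, ?_, by rw [h2]; omega⟩
    rw [h1, hi2]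
    ext z
    simp only [Set.mem_ofPred_eq]
    constructor
    · intro h i hi
      exact h ⟨i, hi⟩
    · intro h j
      exact h _ j.2

end Pool.Agent.KS6_4.EH
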