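import Pool.Agent.KS6_4.EH.Thin

/-!
# The entire map
-/

set_option autoImplicit false

namespace Pool.Agent.KS6_4.EH

open Filter Topology Set

variable {k : ℕ} {q D : ℕ} {hq : q < k} {a : ℂ}

/-- the argument of the linearizing map -/
noncomputable def arg (k q : ℕ) (hq0 : 0 < q) (b : ℂ) (δ : ℝ) (t : Fin q → ℂ) : Fin k → ℂ := fun i =>
  (δ : ℂ) * (t ⟨0, hq0⟩ * b ^ (i : ℕ) + if h : 1 ≤ (i : ℕ) ∧ (i : ℕ) < q then t ⟨i, h.2⟩ else 0)

/-- moduli of the linear prediction -/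
lemma lin_mod {b : ℂ} (hk : 0 < k) (hb : b ^ k = a) {y : Fin k → ℂ} {s β : ℝ} (hβ : β = ‖b‖)
    (h : ∀ i : Fin k, 9 / 10 * s * β ^ (i : ℕ) ≤ ‖y i‖ ∧ ‖y i‖ ≤ 11 / 10 * s * β ^ (i : ℕ)) (n : ℕ) :
    9 / 10 * s * β ^ n ≤ ‖lin hk a y n‖ ∧ ‖lin hk a y n‖ ≤ 11 / 10 * s * β ^ n := by
  have e : n = k * (n / k) + n % k := (Nat.div_add_mod n k).symm
  have e2 : β ^ n = ‖a‖ ^ (n / k) * β ^ (n % k) := by
    conv_lhs => rw [e]
    rw [pow_add, pow_mul, ← hb, norm_pow, hβ]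
  have h1 := h ⟨n % k, Nat.mod_lt _ hk⟩
  simp only at h1
  unfold lin
  rw [norm_mul, norm_pow, e2]
  have h0 : 0 ≤ ‖a‖ ^ (n / k) := by positivity
  constructor
  · calc _ = ‖a‖ ^ (n / k) * (9 / 10 * s * β ^ (n % k)) := by ring
      _ ≤ _ := by gcongr; exact h1.1
  · calc _ ≤ ‖a‖ ^ (n / k) * (11 / 10 * s * β ^ (n % k)) := by gcongr; exact h1.2
      _ = _ := by ring

lemma lin_small {b : ℂ} (hk : 0 < k) (hb : b ^ k = a) {y : Fin k → ℂ} {s β : ℝ} (hβ : β = ‖b‖)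
    (h : ∀ i : Fin k, ‖y i‖ ≤ s * β ^ (i : ℕ)) (n : ℕ) :
    ‖lin hk a y n‖ ≤ s * β ^ n := by
  have e : n = k * (n / k) + n % k := (Nat.div_add_mod n k).symm
  have e2 : β ^ n = ‖a‖ ^ (n / k) * β ^ (n % k) := by
    conv_lhs => rw [e]
    rw [pow_add, pow_mul, ← hb, norm_pow, hβ]
  have h1 := h ⟨n % k, Nat.mod_lt _ hk⟩
  simp only at h1
  unfold lin
  rw [norm_mul, norm_pow, e2]
  have h0 : 0 ≤ ‖a‖ ^ (n / k) := by positivity
  calc _ ≤ ‖a‖ ^ (n / k) * (s * β ^ (n % k)) := by gcongr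
    _ = _ := by ring

lemma arg_mod {b : ℂ} {β : ℝ} (hβ : β = ‖b‖) (hβ0 : 0 < β) (hβ1 : β ≤ 1) (hq0 : 0 < q) {s0 : ℝ}
    (hs0 : 0 < s0) : ∃ δ : ℝ, 0 < δ ∧ ∀ t : Fin q → ℂ,
      (∀ i : Fin q, 1 ≤ (i : ℕ) → ‖t i‖ ≤ 3 + √‖t ⟨0, hq0⟩‖) →
      (∀ i : Fin k, 9 / 10 * (δ * ‖t ⟨0, hq0⟩‖) * β ^ (i : ℕ) ≤ ‖arg k q hq0 b δ t i‖ ∧
        ‖arg k q hq0 b δ t i‖ ≤ 11 / 10 * (δ * ‖t ⟨0, hq0⟩‖) * β ^ (i : ℕ)) ∨
      (∀ i : Fin k, ‖arg k q hq0 b δ t i‖ ≤ (2 * s0) * β ^ (i : ℕ)) := by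
  have hβq : 0 < β ^ q := by positivity
  -- choice of δ
  obtain ⟨δ, hδ, h1, h2⟩ : ∃ δ : ℝ, 0 < δ ∧ 3 * δ ≤ β ^ q / 20 * s0 ∧
      √δ * √s0 ≤ β ^ q / 20 * s0 := by
    refine ⟨min (β ^ q / 60 * s0) ((β ^ q / 20) ^ 2 * s0), by positivity, ?_, ?_⟩
    · have := min_le_left (β ^ q / 60 * s0) ((β ^ q / 20) ^ 2 * s0)
      linarith
    · rw [← Real.sqrt_mul (by positivity)]
      apply Real.sqrt_le_iff.2
      refine ⟨by positivity, ?_⟩
      have := min_le_right (β ^ q / 60 * s0) ((β ^ q / 20) ^ 2 * s0)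
      calc _ ≤ (β ^ q / 20) ^ 2 * s0 * s0 := by gcongr
        _ = _ := by ring
  refine ⟨δ, hδ, fun t ht => ?_⟩
  set τ0 := ‖t ⟨0, hq0⟩‖ with hτ0
  have hτ : 0 ≤ τ0 := norm_nonneg _
  have hδn : ‖(δ : ℂ)‖ = δ := by rw [Complex.norm_real, Real.norm_of_nonneg hδ.le]
  -- the perturbation
  have hp : ∀ i : Fin k, ‖arg k q hq0 b δ t i - (δ : ℂ) * (t ⟨0, hq0⟩ * b ^ (i : ℕ))‖ ≤
      if 1 ≤ (i : ℕ) ∧ (i : ℕ) < q then δ * (3 + √τ0) else 0 := by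
    intro i
    unfold arg
    rw [← mul_sub, add_sub_cancel_left, norm_mul, hδn]
    split_ifs with h
    · gcongr
      exact ht _ h.1
    · simp
  have hmain : ∀ i : Fin k, ‖(δ : ℂ) * (t ⟨0, hq0⟩ * b ^ (i : ℕ))‖ = δ * τ0 * β ^ (i : ℕ) := by
    intro i
    rw [norm_mul, norm_mul, norm_pow, hδn, ← hβ]
    ring
  have hsq : δ * √τ0 = √δ * √(δ * τ0) := by
    rw [Real.sqrt_mul hδ.le, ← mul_assoc, Real.mul_self_sqrt hδ.le]
  have hpow : ∀ i : ℕ, i < q → β ^ q ≤ β ^ i := fun i hi => pow_le_pow_of_le_one hβ0.le hβ1 hi.le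
  rcases le_total s0 (δ * τ0) with hs | hs
  · left
    -- main case
    have h3 : √s0 * √(δ * τ0) ≤ δ * τ0 := by
      have h4 : √s0 ≤ √(δ * τ0) := Real.sqrt_le_sqrt hs
      have h5 := Real.mul_self_sqrt (show 0 ≤ δ * τ0 by positivity)
      have h6 := Real.sqrt_nonneg (δ * τ0)
      nlinarith
    have h4 : δ * (3 + √τ0) ≤ β ^ q / 10 * (δ * τ0) := by
      rw [mul_add, hsq]
      have h5 : √δ * √(δ * τ0) ≤ β ^ q / 20 * (δ * τ0) := by
        have hs00 : 0 < √s0 := Real.sqrt_pos.2 hs0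
        have h6 : √δ ≤ β ^ q / 20 * √s0 := by
          have h7 : √δ * √s0 ≤ (β ^ q / 20 * √s0) * √s0 := by
            rw [mul_assoc, Real.mul_self_sqrt hs0.le]
            exact h2
          exact le_of_mul_le_mul_right h7 hs00
        calc √δ * √(δ * τ0) ≤ (β ^ q / 20 * √s0) * √(δ * τ0) := by gcongr
          _ = β ^ q / 20 * (√s0 * √(δ * τ0)) := by ring
          _ ≤ _ := by gcongr
      have h6 : 3 * δ ≤ β ^ q / 20 * (δ * τ0) := h1.trans (by gcongr)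
      linarith
    intro i
    have h5 : ‖arg k q hq0 b δ t i - (δ : ℂ) * (t ⟨0, hq0⟩ * b ^ (i : ℕ))‖ ≤
        1 / 10 * (δ * τ0) * β ^ (i : ℕ) := by
      refine (hp i).trans ?_
      split_ifs with h
      · have h6 := hpow i h.2
        have h7 : 0 ≤ δ * τ0 := by positivity
        nlinarith
      · positivity
    have h6 := norm_sub_norm_le (arg k q hq0 b δ t i) ((δ : ℂ) * (t ⟨0, hq0⟩ * b ^ (i : ℕ)))
    have h7 := norm_sub_norm_le ((δ : ℂ) * (t ⟨0, hq0⟩ * b ^ (i : ℕ))) (arg k q hq0 b δ t i)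
    rw [norm_sub_rev] at h7
    rw [hmain] at h6 h7
    constructor <;> linarith
  · right
    have h4 : δ * (3 + √τ0) ≤ β ^ q / 10 * s0 := by
      rw [mul_add, hsq]
      have h5 : √δ * √(δ * τ0) ≤ √δ * √s0 := by gcongr
      linarith
    intro i
    have h5 : ‖arg k q hq0 b δ t i - (δ : ℂ) * (t ⟨0, hq0⟩ * b ^ (i : ℕ))‖ ≤
        1 / 10 * s0 * β ^ (i : ℕ) := by
      refine (hp i).trans ?_
      split_ifs with h
      · have h6 := hpow i h.2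
        nlinarith
      · positivity
    have h6 := norm_sub_norm_le (arg k q hq0 b δ t i) ((δ : ℂ) * (t ⟨0, hq0⟩ * b ^ (i : ℕ)))
    rw [hmain] at h6
    have h8 : δ * τ0 * β ^ (i : ℕ) ≤ s0 * β ^ (i : ℕ) := by gcongr
    have h9 : 0 ≤ s0 * β ^ (i : ℕ) := by positivity
    linarith

/-- `arg` as a linear map -/
noncomputable def argL (k q : ℕ) (hq0 : 0 < q) (b : ℂ) (δ : ℝ) : (Fin q → ℂ) →L[ℂ] (Fin k → ℂ) :=
  LinearMap.toContinuousLinearMap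
    { toFun := arg k q hq0 b δ
      map_add' := by
        intro s t
        ext i
        simp only [arg, Pi.add_apply]
        split_ifs <;> ring
      map_smul' := by
        intro c t
        ext i
        simp only [arg, Pi.smul_apply, smul_eq_mul, RingHom.id_apply]
        split_ifs <;> ring }

lemma argL_apply (hq0 : 0 < q) (b : ℂ) (δ : ℝ) (t : Fin q → ℂ) :
    argL k q hq0 b δ t = arg k q hq0 b δ t := rfl

lemma argL_injective (hq0 : 0 < q) (hqk : q < k) (b : ℂ) {δ : ℝ} (hδ : 0 < δ) :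
    Function.Injective (argL k q hq0 b δ) := by
  rw [injective_iff_map_eq_zero]
  intro t ht
  have hδ' : (δ : ℂ) ≠ 0 := by exact_mod_cast hδ.ne'
  have h : ∀ i : Fin k, arg k q hq0 b δ t i = 0 := fun i => congrFun ht i
  have h0 : t ⟨0, hq0⟩ = 0 := by
    have := h ⟨0, by omega⟩
    simpa [arg, hδ'] using this
  ext i
  rcases Nat.eq_zero_or_pos (i : ℕ) with hi | hi
  · have : i = ⟨0, hq0⟩ := Fin.ext hi
    rw [this, h0]
    rfl
  · have h1 := h ⟨i, i.2.trans hqk⟩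
    unfold arg at h1
    simp only at h1
    rw [dif_pos ⟨hi, i.2⟩, h0, zero_mul, zero_add] at h1
    exact (mul_eq_zero.1 h1).resolve_left hδ'

theorem exists_tau (hq2 : 2 ≤ q) (hq : q < k) (hD : 2 * k + 2 ≤ D) (ha0 : a ≠ 0)
    (ha : ‖a‖ ≤ (1 / 100) ^ k) :
    ∃ τ : (Fin q → ℂ) → Fin k → ℂ, Differentiable ℂ τ ∧ Function.Injective τ ∧
      (∀ ζ, Function.Injective (fderiv ℂ τ ζ)) ∧
      (∀ ζ, ∃ C, ∀ n, ‖sq q D hq a (τ ζ) n‖ ≤ C) ∧
      ∃ c > 0, ∀ ζ, c * (1 + ∑ i, ‖τ ζ i‖ ^ 2) ≤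
        ∑ i : Fin q, ‖τ ζ ⟨i, i.2.trans hq⟩ - (if (i : ℕ) = 1 then 1 else 0)‖ ^ 2 := by
  have hk : 0 < k := by omega
  have hq0 : 0 < q := by omega
  obtain ⟨b, hb⟩ := IsAlgClosed.exists_pow_nat_eq a hk
  set β := ‖b‖ with hβ
  have hβa : ‖a‖ = β ^ k := by rw [← hb, norm_pow]
  have hβ0 : 0 < β := by
    rw [hβ, norm_pos_iff]
    rintro rfl
    rw [zero_pow hk.ne'] at hb
    exact ha0 hb.symm
  have hβ1 : β ≤ 1 / 100 := by
    rw [hβa] at ha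
    exact (pow_le_pow_iff_left₀ hβ0.le (by norm_num) hk.ne').1 ha
  have ha1 : ‖a‖ < 1 := by
    rw [hβa]
    exact pow_lt_one₀ hβ0.le (by linarith) hk.ne'
  obtain ⟨T, T1, T2, T3, T4, T5, T6⟩ := exists_thin (q := q) hq0 (by omega)
  obtain ⟨Φ, F1, F2, F3, F4, F5, F6⟩ := exists_Phi (k := k) (q := q) (D := D) (hq := hq) (a := a)
    (by omega) (by omega) ha0 ha1
  obtain ⟨δ, hδ, hmod⟩ := arg_mod (k := k) hβ hβ0 (by linarith) hq0
    (show 0 < β / 10 by positivity)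
  set τ : (Fin q → ℂ) → Fin k → ℂ := fun ζ => Φ (argL k q hq0 b δ (T ζ)) with hτ
  have hdec : ∀ ζ, ∃ C, ∀ n, ‖sq q D hq a (τ ζ) n‖ ≤ C * β ^ n := fun ζ =>
    decay hk F2 F3 ha0 ha1 F4 _ hβ0 (by linarith) hβa
  have hbd : ∀ ζ, ∃ C, ∀ n, ‖sq q D hq a (τ ζ) n‖ ≤ C := by
    intro ζ
    obtain ⟨C, hC⟩ := hdec ζ
    refine ⟨|C|, fun n => (hC n).trans ?_⟩
    have h5 : β ^ n ≤ 1 := pow_le_one₀ hβ0.le (by linarith)
    have h6 : 0 ≤ β ^ n := by positivity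
    nlinarith [le_abs_self C, abs_nonneg C]
  refine ⟨τ, ?_, ?_, ?_, hbd, ?_⟩
  · exact F1.comp ((argL k q hq0 b δ).differentiable.comp T1)
  · intro s t hst
    exact T5 (argL_injective hq0 hq b hδ (F5 hst))
  · intro ζ
    have h1 : HasFDerivAt (fun ζ => argL k q hq0 b δ (T ζ))
        ((argL k q hq0 b δ).comp (fderiv ℂ T ζ)) ζ :=
      (argL k q hq0 b δ).hasFDerivAt.comp ζ (T1 ζ).hasFDerivAt
    have h3 : HasFDerivAt τ ((fderiv ℂ Φ (argL k q hq0 b δ (T ζ))).comp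
        ((argL k q hq0 b δ).comp (fderiv ℂ T ζ))) ζ := (F1 _).hasFDerivAt.comp ζ h1
    rw [h3.fderiv]
    intro s t hst
    exact T6 ζ (argL_injective hq0 hq b hδ (F6 _ hst))
  -- the avoided polydisc
  set Qv : (Fin q → ℂ) → ℝ := fun ζ =>
    ∑ i : Fin q, ‖τ ζ ⟨i, i.2.trans hq⟩ - (if (i : ℕ) = 1 then 1 else 0)‖ ^ 2 with hQv
  have hQ0 : ∀ ζ, 0 ≤ Qv ζ := fun ζ => Finset.sum_nonneg fun i _ => by positivity
  have hterm : ∀ ζ (i : ℕ) (hi : i < q),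
      ‖sq q D hq a (τ ζ) i - (if i = 1 then 1 else 0)‖ ^ 2 ≤ Qv ζ := by
    intro ζ i hi
    rw [sq_lt _ (hi.trans hq)]
    exact Finset.single_le_sum (f := fun i : Fin q =>
      ‖τ ζ ⟨i, i.2.trans hq⟩ - (if (i : ℕ) = 1 then 1 else 0)‖ ^ 2)
      (fun i _ => by positivity) (Finset.mem_univ ⟨i, hi⟩)
  have hterm2 : ∀ ζ (i : ℕ) (hi : i < q), ‖sq q D hq a (τ ζ) i‖ ≤ 1 + √(Qv ζ) := by
    intro ζ i hi
    have h1 := Real.le_sqrt_of_sq_le (hterm ζ i hi)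
    have h2 : ‖(if i = 1 then 1 else 0 : ℂ)‖ ≤ 1 := by split_ifs <;> simp
    have h3 := norm_sub_norm_le (sq q D hq a (τ ζ) i) (if i = 1 then 1 else 0 : ℂ)
    linarith
  have hav : ∀ ζ, 1 / 16 ≤ Qv ζ := by
    intro ζ
    by_contra hcon
    push Not at hcon
    have hs : √(Qv ζ) ≤ 1 / 4 := by
      rw [Real.sqrt_le_iff]
      exact ⟨by norm_num, by linarith⟩
    have h0 : ‖sq q D hq a (τ ζ) 0‖ ≤ 1 / 4 := by
      have := Real.le_sqrt_of_sq_le (hterm ζ 0 hq0)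
      simp only [zero_ne_one, if_false, sub_zero] at this
      linarith
    have h1 : 3 / 4 ≤ ‖sq q D hq a (τ ζ) 1‖ := by
      have := Real.le_sqrt_of_sq_le (hterm ζ 1 (by omega))
      simp only [if_true] at this
      have h3 := norm_sub_norm_le (1 : ℂ) (sq q D hq a (τ ζ) 1)
      rw [norm_sub_rev, norm_one] at h3
      linarith
    have hℓ := lim_lin (q := q) (D := D) (hq := hq) hk F2 F3 ha0 ha1 F4
      (argL k q hq0 b δ (T ζ))
    have hcase : (∃ σ : ℝ, 0 ≤ σ ∧ ∀ n,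
        9 / 10 * σ * β ^ n ≤ ‖lin hk a (argL k q hq0 b δ (T ζ)) n‖ ∧
        ‖lin hk a (argL k q hq0 b δ (T ζ)) n‖ ≤ 11 / 10 * σ * β ^ n) ∨
        ∀ n, ‖lin hk a (argL k q hq0 b δ (T ζ)) n‖ ≤ β / 5 * β ^ n := by
      rcases hmod (T ζ) (T4 ζ) with h | h
      · left
        exact ⟨δ * ‖T ζ ⟨0, hq0⟩‖, by positivity, fun n => lin_mod hk hb hβ h n⟩
      · right
        intro n
        have := lin_small hk hb hβ h n
        rw [argL_apply]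
        convert this using 2
        ring
    obtain ⟨i, hi, h2⟩ := avoid hq2 hq hD hβ0 hβ1 hβa (sq_rec (τ ζ)) (hdec ζ) hℓ hcase h0 h1
    have h3 := hterm2 ζ i hi
    linarith
  -- growth
  set B : ℝ := ‖a‖⁻¹ + 3 with hB
  have hB0 : 0 ≤ B := by positivity
  have hgrow : ∀ ζ (i : ℕ), ‖sq q D hq a (τ ζ) i‖ ≤ B + √(Qv ζ) := by
    intro ζ i
    have hs0 := Real.sqrt_nonneg (Qv ζ)
    have hai : 0 ≤ ‖a‖⁻¹ := by positivity
    rcases lt_or_ge i q with hi | hi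
    · have := hterm2 ζ i hi
      linarith
    · have h1 := sup_bound (X := sq q D hq a (τ ζ)) (r := q) (A := ‖a‖⁻¹ + 1)
        (M := 1 + (1 + √(Qv ζ))) (by positivity) (by positivity) (hbd ζ) ?_ i hi
      · have h2 : √(1 + (1 + √(Qv ζ))) ≤ 1 + (1 + √(Qv ζ)) := by
          rw [Real.sqrt_le_iff]
          exact ⟨by positivity, by nlinarith⟩
        linarith
      · intro S hS hSb m hm
        obtain ⟨n, rfl⟩ := Nat.exists_eq_add_of_le hm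
        have h5 := sq_rec (q := q) (D := D) (hq := hq) (a := a) (τ ζ) n
        have h6 : sq q D hq a (τ ζ) (q + n) ^ D =
            a⁻¹ * sq q D hq a (τ ζ) (n + k) - sq q D hq a (τ ζ) n := by
          rw [h5, ← mul_assoc, inv_mul_cancel₀ ha0, one_mul, add_comm q n]
          ring
        have h7 : ‖sq q D hq a (τ ζ) (q + n)‖ ^ D ≤
            ‖a‖⁻¹ * S + (S + (1 + √(Qv ζ))) := by
          rw [← norm_pow, h6]
          refine (norm_sub_le _ _).trans ?_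
          rw [norm_mul, norm_inv]
          have h8 := hSb (n + k) (by omega)
          have h9 : ‖sq q D hq a (τ ζ) n‖ ≤ S + (1 + √(Qv ζ)) := by
            rcases lt_or_ge n q with h10 | h10
            · have := hterm2 ζ n h10
              linarith
            · have := hSb n h10
              linarith
          gcongr
        have h8 : ‖sq q D hq a (τ ζ) (q + n)‖ ^ 2 ≤ 1 + ‖sq q D hq a (τ ζ) (q + n)‖ ^ D := by
          rcases le_total ‖sq q D hq a (τ ζ) (q + n)‖ 1 with h9 | h9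
          · have h10 : ‖sq q D hq a (τ ζ) (q + n)‖ ^ 2 ≤ 1 := pow_le_one₀ (norm_nonneg _) h9
            have h11 : 0 ≤ ‖sq q D hq a (τ ζ) (q + n)‖ ^ D := by positivity
            linarith
          · have : ‖sq q D hq a (τ ζ) (q + n)‖ ^ 2 ≤ ‖sq q D hq a (τ ζ) (q + n)‖ ^ D :=
              pow_le_pow_right₀ h9 (by omega)
            linarith
        linarith
  refine ⟨1 / (16 + 32 * k * B ^ 2 + 2 * k), by positivity, fun ζ => ?_⟩
  rw [div_mul_eq_mul_div, one_mul, div_le_iff₀ (by positivity)]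
  have hs : ∑ i, ‖τ ζ i‖ ^ 2 ≤ k * (2 * B ^ 2 + 2 * Qv ζ) := by
    have h1 : ∀ i ∈ (Finset.univ : Finset (Fin k)), ‖τ ζ i‖ ^ 2 ≤ 2 * B ^ 2 + 2 * Qv ζ := by
      intro i _
      have h2 := hgrow ζ i
      rw [sq_lt _ i.2] at h2
      have h3 := Real.sq_sqrt (hQ0 ζ)
      have h4 := Real.sqrt_nonneg (Qv ζ)
      have h5 := norm_nonneg (τ ζ i)
      have h6 : ‖τ ζ i‖ ^ 2 ≤ (B + √(Qv ζ)) ^ 2 := by gcongr
      nlinarith [sq_nonneg (B - √(Qv ζ))]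
    have h2 := Finset.sum_le_card_nsmul _ _ _ h1
    rw [Finset.card_univ, Fintype.card_fin, nsmul_eq_mul] at h2
    exact h2
  have h1 := hav ζ
  have h2 : (k : ℝ) * (2 * B ^ 2) ≤ 32 * k * B ^ 2 * Qv ζ := by
    have : 0 ≤ (k : ℝ) * B ^ 2 := by positivity
    nlinarith
  change 1 + ∑ i, ‖τ ζ i‖ ^ 2 ≤ Qv ζ * _
  nlinarith

end Pool.Agent.KS6_4.EH
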