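import Pool.Agent.KS6_4.EH.W5
import Pool.Agent.KS6_4.EH.Poly
import Pool.Agent.KS6_4.EH.Tau

/-!
# Thin entire images and closed currents
-/

set_option autoImplicit false

namespace Pool.Agent.KS6_4.EH

open Pool.Agent.H72R3.HJ Set

variable {k m : ℕ}

/-- the linear map `[z_0 : z_1 : …] ↦ (z_1, z_2 - z_0, z_3, …, z_{m+1})` -/
noncomputable def projL (hm : m + 1 < k) : V k →L[ℂ] V m :=
  ContinuousLinearMap.pi fun i : Fin (m + 1) =>
    ContinuousLinearMap.proj (R := ℂ) (φ := fun _ : Fin (k + 1) => ℂ) ⟨i + 1, by omega⟩ -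
      (if (i : ℕ) = 1 then (1 : ℂ) else 0) •
        ContinuousLinearMap.proj (R := ℂ) (φ := fun _ : Fin (k + 1) => ℂ) 0

lemma projL_cons (hm : m + 1 < k) (w : Fin k → ℂ) (i : Fin (m + 1)) :
    projL hm (Fin.cons 1 w : V k) i = w ⟨i, i.2.trans hm⟩ - if (i : ℕ) = 1 then 1 else 0 := by
  unfold projL
  rw [ContinuousLinearMap.coe_pi']
  simp only [ContinuousLinearMap.sub_apply, ContinuousLinearMap.smul_apply,
    ContinuousLinearMap.proj_apply, Fin.cons_zero, smul_eq_mul, mul_one]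
  congr 1

lemma Nk_cons (w : Fin k → ℂ) : Nk (Fin.cons 1 w : V k) = 1 + ∑ i, ‖w i‖ ^ 2 := by
  unfold Nk
  rw [Fin.sum_univ_succ]
  simp

theorem cone_ineq (hm : m + 1 < k) {c : ℝ} {S : Set (Fin k → ℂ)}
    (h : ∀ w ∈ S, c * (1 + ∑ i, ‖w i‖ ^ 2) ≤
      ∑ i : Fin (m + 1), ‖w ⟨i, i.2.trans hm⟩ - (if (i : ℕ) = 1 then 1 else 0)‖ ^ 2) :
    ∀ z ∈ cone S, c * Nk z ≤ Nk (projL hm z) := by
  rintro z ⟨w, hw, b, rfl⟩
  rw [map_smul, Nk_smul, Nk_smul, Nk_cons]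
  have h1 := h w hw
  have h2 : Nk (projL hm (Fin.cons 1 w : V k)) =
      ∑ i : Fin (m + 1), ‖w ⟨i, i.2.trans hm⟩ - (if (i : ℕ) = 1 then 1 else 0)‖ ^ 2 := by
    unfold Nk
    refine Finset.sum_congr rfl fun i _ => ?_
    rw [projL_cons]
  rw [h2]
  have h3 : 0 ≤ ‖b‖ ^ 2 := by positivity
  nlinarith

theorem mem_julia {q D : ℕ} {hq : q < k} {a : ℂ} {P : PolyMap k} {n : ℕ}
    (hP : toFun P = (shiftLike q D hq a)^[n]) {x : Fin k → ℂ} {C : ℝ}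
    (hC : ∀ n, ‖sq q D hq a x n‖ ≤ C) : x ∈ filledJulia P := by
  have hC0 : 0 ≤ C := (norm_nonneg _).trans (hC 0)
  show Bornology.IsBounded (range fun j : ℕ => (toFun P)^[j] x)
  rw [Metric.isBounded_iff_subset_closedBall 0]
  refine ⟨C, ?_⟩
  rintro _ ⟨j, rfl⟩
  rw [mem_closedBall_zero_iff, pi_norm_le_iff_of_nonneg hC0]
  intro i
  simp only
  rw [hP, ← Function.iterate_mul, sq_add]
  exact hC _

end Pool.Agent.KS6_4.EH
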