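import Mathlib
import Pool.Graph.R_seed8.Helper540.Holo

/-!
# Linearization of an entire map at a repelling fixed point with scalar derivative
-/

set_option autoImplicit false

namespace Pool.Agent.KS6_4.EH

open Filter Topology Metric Set

variable {E : Type*} [NormedAddCommGroup E] [NormedSpace ℂ E]

lemma exists_quad {g : E → E} (hg : ContDiff ℂ 2 g) {L : E →L[ℂ] E} (hd : HasFDerivAt g L 0) :
    ∃ K > 0, ∃ r0 > 0, ∀ r ≤ r0, ∀ x y : E, ‖x‖ ≤ r → ‖y‖ ≤ r →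
      ‖g x - g y - L (x - y)‖ ≤ K * r * ‖x - y‖ := by
  have h1 : ContDiff ℂ 1 (fderiv ℂ g) := hg.fderiv_right (m := 1) (by norm_num)
  obtain ⟨K, t, ht, hK⟩ := h1.contDiffAt (x := (0 : E)) |>.exists_lipschitzOnWith
  obtain ⟨r0, hr0, hball⟩ := Metric.mem_nhds_iff.1 ht
  refine ⟨K + 1, by positivity, r0 / 2, by positivity, fun r hr x y hx hy => ?_⟩
  have hL : fderiv ℂ g 0 = L := hd.fderiv
  have hr' : 0 ≤ r := (norm_nonneg x).trans hx
  have hconv : Convex ℝ (closedBall (0 : E) r) := convex_closedBall _ _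
  have := Convex.norm_image_sub_le_of_norm_fderiv_le' (𝕜 := ℂ) (f := g) (s := closedBall (0 : E) r)
    (φ := L) (C := (K + 1) * r) (x := y) (y := x)
    (fun z _ => (hg.differentiable (by norm_num)) z) (fun z hz => ?_) hconv
    (by simpa using hy) (by simpa using hx)
  · exact this
  · rw [← hL]
    have hz' : ‖z‖ ≤ r := by simpa using hz
    have hz1 : z ∈ t := hball (by rw [mem_ball_zero_iff]; linarith)
    have h01 : (0 : E) ∈ t := hball (mem_ball_self hr0)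
    have := hK.dist_le_mul z hz1 0 h01
    rw [dist_eq_norm, dist_zero_right] at this
    calc _ ≤ (K : ℝ) * ‖z‖ := this
      _ ≤ (K + 1) * r := by gcongr; linarith

/-- Linearization: `Φ (Λ x) = g (Φ x)`. -/
theorem exists_lin [CompleteSpace E] {g : E → E} (hg : ContDiff ℂ 2 g) (h0 : g 0 = 0) {Λ : ℂ}
    (hΛ : 1 < ‖Λ‖) (hd : HasFDerivAt g (Λ • ContinuousLinearMap.id ℂ E) 0) :
    ∃ Φ : E → E, Differentiable ℂ Φ ∧ Φ 0 = 0 ∧ HasFDerivAt Φ (ContinuousLinearMap.id ℂ E) 0 ∧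
      ∀ x, Φ (Λ • x) = g (Φ x) := by
  obtain ⟨K, hK, r0, hr0, hq⟩ := exists_quad hg hd
  set l := ‖Λ‖ with hl
  have hl0 : 0 < l := by linarith
  have hΛ0 : Λ ≠ 0 := by rintro rfl; simp at hl; linarith
  -- the contraction ratio
  obtain ⟨ε, hε, hεl⟩ : ∃ ε > 0, l + ε < l ^ 2 := ⟨(l ^ 2 - l) / 2, by nlinarith, by nlinarith⟩
  set κ := (l + ε) / l ^ 2 with hκ
  have hκ1 : κ < 1 := by rw [hκ, div_lt_one (by positivity)]; exact hεl
  have hκ0 : 0 < κ := by positivity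
  -- radius
  obtain ⟨r, hr, hr1, hr2, hr3⟩ : ∃ r > 0, 2 * r ≤ r0 ∧ K * (2 * r) ≤ ε ∧ K * r ≤ 1 - κ := by
    refine ⟨min (r0 / 2) (min (ε / (2 * K)) ((1 - κ) / K)), ?_, ?_, ?_, ?_⟩
    · have : 0 < 1 - κ := by linarith
      positivity
    · have := min_le_left (r0 / 2) (min (ε / (2 * K)) ((1 - κ) / K)); linarith
    · have h1 := (min_le_right (r0 / 2) (min (ε / (2 * K)) ((1 - κ) / K))).trans (min_le_left _ _)
      calc K * (2 * _) ≤ K * (2 * (ε / (2 * K))) := by gcongr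
        _ = ε := by field_simp
    · have h1 := (min_le_right (r0 / 2) (min (ε / (2 * K)) ((1 - κ) / K))).trans (min_le_right _ _)
      calc K * _ ≤ K * ((1 - κ) / K) := by gcongr
        _ = 1 - κ := by field_simp
  have hlip : ∀ x y : E, ‖x‖ ≤ 2 * r → ‖y‖ ≤ 2 * r → ‖g x - g y‖ ≤ (l + ε) * ‖x - y‖ := by
    intro x y hx hy
    have h1 := hq (2 * r) hr1 x y hx hy
    have e : g x - g y = (g x - g y - (Λ • ContinuousLinearMap.id ℂ E) (x - y)) + Λ • (x - y) := by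
      simp
    rw [e]
    refine (norm_add_le _ _).trans ?_
    rw [norm_smul]
    have h2 : K * (2 * r) * ‖x - y‖ ≤ ε * ‖x - y‖ := by gcongr
    linarith
  have hquad : ∀ x : E, ‖x‖ ≤ 2 * r → ‖g x - Λ • x‖ ≤ K * ‖x‖ ^ 2 := by
    intro x hx
    have h1 := hq ‖x‖ (hx.trans hr1) x 0 le_rfl (by simp)
    rw [h0] at h1
    simp only [sub_zero, smul_apply, ContinuousLinearMap.id_apply] at h1
    calc _ ≤ _ := h1
      _ = _ := by ring
  -- the approximations
  let φ : ℕ → E → E := fun n x => g^[n] ((Λ⁻¹) ^ n • x)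
  have φ_zero : ∀ x, φ 0 x = x := fun x => by simp [φ]
  have φ_succ : ∀ n x, φ (n + 1) x = g (φ n (Λ⁻¹ • x)) := by
    intro n x
    simp only [φ]
    rw [Function.iterate_succ_apply', pow_succ, mul_smul]
  have φ_add : ∀ m n x, φ (n + m) x = g^[m] (φ n ((Λ⁻¹) ^ m • x)) := by
    intro m
    induction m with
    | zero => intro n x; simp
    | succ m ih =>
      intro n x
      rw [← add_assoc, φ_succ, ih, Function.iterate_succ_apply', pow_succ, mul_smul]
  have hinv : ‖Λ⁻¹‖ = l⁻¹ := by rw [norm_inv]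
  have hκs : 0 < 1 - κ := by linarith
  have bd : ∀ n, ∀ x y : E, ‖x‖ ≤ r → ‖y - x‖ ≤ K * ‖x‖ ^ 2 * ((1 - κ ^ n) / (1 - κ)) →
      ‖y‖ ≤ 2 * ‖x‖ := by
    intro n x y hx hy
    have h1 : (1 - κ ^ n) / (1 - κ) ≤ 1 / (1 - κ) := by
      gcongr
      have := pow_nonneg hκ0.le n
      linarith
    have h2 : ‖y - x‖ ≤ ‖x‖ := by
      calc _ ≤ _ := hy
        _ ≤ K * ‖x‖ ^ 2 * (1 / (1 - κ)) := by gcongr
        _ = (K * ‖x‖) * ‖x‖ / (1 - κ) := by ring
        _ ≤ (1 - κ) * ‖x‖ / (1 - κ) := by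
            gcongr
            calc K * ‖x‖ ≤ K * r := by gcongr
              _ ≤ 1 - κ := hr3
        _ = ‖x‖ := by field_simp
    calc ‖y‖ = ‖(y - x) + x‖ := by simp
      _ ≤ ‖y - x‖ + ‖x‖ := norm_add_le _ _
      _ ≤ 2 * ‖x‖ := by linarith
  have sm : ∀ x : E, ‖x‖ ≤ r → ‖Λ⁻¹ • x‖ ≤ r := by
    intro x hx
    rw [norm_smul, hinv]
    have : l⁻¹ ≤ 1 := inv_le_one_of_one_le₀ hΛ.le
    calc l⁻¹ * ‖x‖ ≤ 1 * ‖x‖ := by gcongr
      _ ≤ r := by linarith
  have key : ∀ n, (∀ x : E, ‖x‖ ≤ r → ‖φ n x - x‖ ≤ K * ‖x‖ ^ 2 * ((1 - κ ^ n) / (1 - κ))) ∧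
      (∀ x : E, ‖x‖ ≤ r → ‖φ (n + 1) x - φ n x‖ ≤ K * ‖x‖ ^ 2 * κ ^ n) := by
    intro n
    induction n with
    | zero =>
      refine ⟨fun x _ => by simp [φ_zero], fun x hx => ?_⟩
      rw [φ_succ, φ_zero, φ_zero]
      have h1 := hquad (Λ⁻¹ • x) ((sm x hx).trans (by linarith))
      rw [smul_smul, mul_inv_cancel₀ hΛ0, one_smul] at h1
      refine h1.trans ?_
      rw [norm_smul, hinv, pow_zero, mul_one]
      have : l⁻¹ ≤ 1 := inv_le_one_of_one_le₀ hΛ.le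
      have h2 : l⁻¹ * ‖x‖ ≤ ‖x‖ := by nlinarith [norm_nonneg x]
      gcongr
    | succ n ih =>
      have h1 : ∀ x : E, ‖x‖ ≤ r →
          ‖φ (n + 1) x - x‖ ≤ K * ‖x‖ ^ 2 * ((1 - κ ^ (n + 1)) / (1 - κ)) := by
        intro x hx
        calc ‖φ (n + 1) x - x‖ = ‖(φ (n + 1) x - φ n x) + (φ n x - x)‖ := by congr 1; abel
          _ ≤ _ := norm_add_le _ _
          _ ≤ K * ‖x‖ ^ 2 * κ ^ n + K * ‖x‖ ^ 2 * ((1 - κ ^ n) / (1 - κ)) :=
            add_le_add (ih.2 x hx) (ih.1 x hx)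
          _ = _ := by field_simp; ring
      refine ⟨h1, fun x hx => ?_⟩
      rw [φ_succ (n + 1) x, φ_succ n x]
      have hs := sm x hx
      have b1 := bd n _ _ hs (ih.1 _ hs)
      have b2 := bd (n + 1) _ _ hs (h1 _ hs)
      refine (hlip _ _ (b2.trans (by linarith)) (b1.trans (by linarith))).trans ?_
      calc _ ≤ (l + ε) * (K * ‖Λ⁻¹ • x‖ ^ 2 * κ ^ n) := by
            gcongr
            exact ih.2 _ hs
        _ = K * ‖x‖ ^ 2 * κ ^ (n + 1) := by
            have hk : l + ε = κ * l ^ 2 := by rw [hκ]; field_simp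
            rw [norm_smul, hinv, hk]
            have hl' : l ≠ 0 := hl0.ne'
            calc κ * l ^ 2 * (K * (l⁻¹ * ‖x‖) ^ 2 * κ ^ n) =
                (l * l⁻¹) ^ 2 * (K * ‖x‖ ^ 2 * κ ^ (n + 1)) := by ring
              _ = _ := by rw [mul_inv_cancel₀ hl']; ring
  have kb : ∀ n, ∀ x : E, ‖x‖ ≤ r → ‖φ n x‖ ≤ 2 * ‖x‖ := fun n x hx =>
    bd n x _ hx ((key n).1 x hx)
  have conv_small : ∀ x : E, ‖x‖ ≤ r → ∃ y, Tendsto (fun n => φ n x) atTop (𝓝 y) := by
    intro x hx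
    apply cauchySeq_tendsto_of_complete
    apply cauchySeq_of_le_geometric κ (K * ‖x‖ ^ 2) hκ1
    intro n
    rw [dist_comm, dist_eq_norm]
    exact (key n).2 x hx
  have exists_small : ∀ (x : E) {s : ℝ}, 0 < s → ∃ m : ℕ, ‖(Λ⁻¹) ^ m • x‖ < s := by
    intro x s hs
    have h : Tendsto (fun m : ℕ => (l⁻¹) ^ m * ‖x‖) atTop (𝓝 (0 * ‖x‖)) :=
      (tendsto_pow_atTop_nhds_zero_of_lt_one (by positivity) (inv_lt_one_of_one_lt₀ hΛ)).mul_const _
    rw [zero_mul] at h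
    obtain ⟨m, hm⟩ := (h.eventually_lt_const hs).exists
    refine ⟨m, ?_⟩
    rw [norm_smul, norm_pow, hinv]
    exact hm
  have giter_diff : ∀ m, Differentiable ℂ g^[m] := fun m => (hg.differentiable (by norm_num)).iterate m
  have conv_all : ∀ x : E, ∃ y, Tendsto (fun n => φ n x) atTop (𝓝 y) := by
    intro x
    obtain ⟨m, hm⟩ := exists_small x hr
    obtain ⟨y, hy⟩ := conv_small _ hm.le
    refine ⟨g^[m] y, ?_⟩
    rw [← tendsto_add_atTop_iff_nat m]
    simp_rw [φ_add]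
    exact ((giter_diff m).continuous.tendsto y).comp hy
  choose Φ hΦ using conv_all
  have Φ_iter : ∀ m x, Φ x = g^[m] (Φ ((Λ⁻¹) ^ m • x)) := by
    intro m x
    have h1 := (tendsto_add_atTop_iff_nat m).2 (hΦ x)
    simp_rw [φ_add] at h1
    exact tendsto_nhds_unique h1 (((giter_diff m).continuous.tendsto _).comp (hΦ _))
  have Φ_close : ∀ x : E, ‖x‖ ≤ r → ∀ n, ‖φ n x - Φ x‖ ≤ K * ‖x‖ ^ 2 / (1 - κ) * κ ^ n := by
    intro x hx n
    have h := dist_le_of_le_geometric_of_tendsto κ (K * ‖x‖ ^ 2) hκ1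
      (fun n => by rw [dist_comm, dist_eq_norm]; exact (key n).2 x hx) (hΦ x) n
    rw [dist_eq_norm] at h
    refine h.trans (le_of_eq ?_)
    ring
  have φ_diff : ∀ n, Differentiable ℂ (φ n) := by
    intro n
    exact (giter_diff n).comp (differentiable_id.const_smul ((Λ⁻¹) ^ n))
  have Φ_diffOn : DifferentiableOn ℂ Φ (ball 0 (r / 2)) := by
    apply Pool.Agent.Helper540.differentiableOn_of_uniform_limit (f := φ)
      (fun n => (φ_diff n).differentiableOn)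
    rw [Metric.tendstoUniformlyOn_iff]
    intro e he
    have h : Tendsto (fun n : ℕ => (K * r ^ 2 / (1 - κ)) * κ ^ n) atTop
        (𝓝 ((K * r ^ 2 / (1 - κ)) * 0)) :=
      (tendsto_pow_atTop_nhds_zero_of_lt_one hκ0.le hκ1).const_mul _
    rw [mul_zero] at h
    filter_upwards [h.eventually_lt_const he] with n hn x hx
    rw [mem_ball_zero_iff] at hx
    rw [dist_comm, dist_eq_norm]
    refine (Φ_close x hx.le n).trans_lt (lt_of_le_of_lt ?_ hn)
    gcongr
  refine ⟨Φ, ?_, ?_, ?_, ?_⟩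
  · intro x
    obtain ⟨m, hm⟩ := exists_small x (show 0 < r / 2 by positivity)
    have e : Φ = g^[m] ∘ Φ ∘ fun x => (Λ⁻¹) ^ m • x := by
      ext1 x
      exact Φ_iter m x
    rw [e]
    have h1 : DifferentiableAt ℂ Φ ((Λ⁻¹) ^ m • x) :=
      Φ_diffOn.differentiableAt (isOpen_ball.mem_nhds (by rwa [mem_ball_zero_iff]))
    exact ((giter_diff m) _).comp x (h1.comp x (differentiableAt_id.const_smul ((Λ⁻¹) ^ m)))
  · have h := Φ_close 0 (by simpa using hr.le) 0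
    simp only [φ_zero, norm_zero, pow_zero, mul_one] at h
    have : ‖(0 : E) - Φ 0‖ ≤ 0 := h.trans (by simp)
    simpa using this
  · have h0' : Φ 0 = 0 := by
      have h := Φ_close 0 (by simpa using hr.le) 0
      simp only [φ_zero, norm_zero, pow_zero, mul_one] at h
      have : ‖(0 : E) - Φ 0‖ ≤ 0 := h.trans (by simp)
      simpa using this
    rw [hasFDerivAt_iff_isLittleO_nhds_zero]
    have h1 : (fun h : E => Φ (0 + h) - Φ 0 - (ContinuousLinearMap.id ℂ E) h) =O[𝓝 0]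
        fun h => ‖h‖ ^ 2 := by
      apply Asymptotics.IsBigO.of_bound (K / (1 - κ))
      filter_upwards [ball_mem_nhds (0 : E) hr] with h hh
      rw [mem_ball_zero_iff] at hh
      have h2 := Φ_close h hh.le 0
      rw [zero_add, h0', sub_zero, norm_sub_rev]
      simp only [ContinuousLinearMap.id_apply, norm_pow, norm_norm]
      rw [φ_zero, pow_zero, mul_one] at h2
      calc _ ≤ _ := h2
        _ = _ := by ring
    refine h1.trans_isLittleO ?_
    have h3 : (fun h : E => ‖h‖ ^ 2) =o[𝓝 0] fun h => ‖h‖ ^ 1 := by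
      apply Asymptotics.IsLittleO.comp_tendsto (Asymptotics.isLittleO_pow_pow (by norm_num))
      simpa using tendsto_norm_zero (E := E)
    simp only [pow_one] at h3
    exact h3.norm_right.congr_right (fun _ => by simp) |>.of_norm_right
  · intro x
    have := Φ_iter 1 (Λ • x)
    rw [pow_one, smul_smul, inv_mul_cancel₀ hΛ0, one_smul] at this
    exact this

/-- the linearizing map is an injective immersion -/
theorem lin_inj [FiniteDimensional ℂ E] {Φ g f : E → E} {Λ : ℂ} (hΛ : 1 < ‖Λ‖)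
    (hg : Differentiable ℂ g) (hf : Differentiable ℂ f) (hfg : ∀ x, f (g x) = x)
    (hΦ : Differentiable ℂ Φ) (hd : HasFDerivAt Φ (ContinuousLinearMap.id ℂ E) 0)
    (hrel : ∀ x, Φ (Λ • x) = g (Φ x)) :
    Function.Injective Φ ∧ ∀ x, Function.Injective (fderiv ℂ Φ x) := by
  have hcs : CompleteSpace E := FiniteDimensional.complete ℂ E
  have hc : ContDiff ℂ 2 Φ := by
    rw [← contDiffOn_univ]
    exact_mod_cast Pool.Agent.Helper540.contDiffOn_of_differentiableOn isOpen_univ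
      hΦ.differentiableOn 2
  obtain ⟨K, hK, r0, hr0, hq⟩ := exists_quad hc hd
  obtain ⟨r, hr, hr1, hr2⟩ : ∃ r > 0, r ≤ r0 ∧ K * r ≤ 1 / 2 := by
    refine ⟨min r0 (1 / (2 * K)), by positivity, min_le_left _ _, ?_⟩
    calc K * _ ≤ K * (1 / (2 * K)) := by gcongr; exact min_le_right _ _
      _ = 1 / 2 := by field_simp
  have hloc : ∀ x y : E, ‖x‖ ≤ r → ‖y‖ ≤ r →
      ‖(Φ x - x) - (Φ y - y)‖ ≤ 1 / 2 * ‖x - y‖ := by
    intro x y hx hy
    have h1 := hq r hr1 x y hx hy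
    have e : (Φ x - x) - (Φ y - y) = Φ x - Φ y - (ContinuousLinearMap.id ℂ E) (x - y) := by
      simp; abel
    rw [e]
    refine h1.trans ?_
    gcongr
  have hΛ0 : Λ ≠ 0 := by rintro rfl; simp at hΛ; linarith
  have hinv : ‖Λ⁻¹‖ = ‖Λ‖⁻¹ := by rw [norm_inv]
  have exists_small : ∀ x : E, ∃ N : ℕ, ∀ m ≥ N, ‖(Λ⁻¹) ^ m • x‖ < r := by
    intro x
    have h : Tendsto (fun m : ℕ => (‖Λ‖⁻¹) ^ m * ‖x‖) atTop (𝓝 (0 * ‖x‖)) :=
      (tendsto_pow_atTop_nhds_zero_of_lt_one (by positivity) (inv_lt_one_of_one_lt₀ hΛ)).mul_const _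
    rw [zero_mul] at h
    obtain ⟨N, hN⟩ := eventually_atTop.1 (h.eventually_lt_const hr)
    refine ⟨N, fun m hm => ?_⟩
    rw [norm_smul, norm_pow, hinv]
    exact hN m hm
  have hiter : ∀ m x, Φ x = g^[m] (Φ ((Λ⁻¹) ^ m • x)) := by
    intro m
    induction m with
    | zero => intro x; simp
    | succ m ih =>
      intro x
      rw [Function.iterate_succ_apply, ← hrel, pow_succ, mul_smul, smul_comm Λ,
        smul_inv_smul₀ hΛ0]
      exact ih x
  constructor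
  · intro x y hxy
    obtain ⟨N1, h1⟩ := exists_small x
    obtain ⟨N2, h2⟩ := exists_small y
    set m := max N1 N2
    have hx := h1 m (le_max_left _ _)
    have hy := h2 m (le_max_right _ _)
    rw [hiter m x, hiter m y] at hxy
    have h3 : Φ ((Λ⁻¹) ^ m • x) = Φ ((Λ⁻¹) ^ m • y) :=
      (Function.LeftInverse.iterate hfg m).injective hxy
    have h4 := hloc _ _ hx.le hy.le
    rw [h3] at h4
    have h5 : ‖(Λ⁻¹) ^ m • x - (Λ⁻¹) ^ m • y‖ ≤ 1 / 2 * ‖(Λ⁻¹) ^ m • x - (Λ⁻¹) ^ m • y‖ := by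
      calc _ = ‖(Φ ((Λ⁻¹) ^ m • y) - (Λ⁻¹) ^ m • x) - (Φ ((Λ⁻¹) ^ m • y) - (Λ⁻¹) ^ m • y)‖ := by
            rw [← norm_neg]; congr 1; abel
        _ ≤ _ := h4
    have h6 : ‖(Λ⁻¹) ^ m • x - (Λ⁻¹) ^ m • y‖ = 0 := by
      have := norm_nonneg ((Λ⁻¹) ^ m • x - (Λ⁻¹) ^ m • y)
      linarith
    rw [norm_eq_zero, ← smul_sub, smul_eq_zero] at h6
    rcases h6 with h6 | h6
    · exact absurd h6 (pow_ne_zero _ (inv_ne_zero hΛ0))
    · exact sub_eq_zero.1 h6
  · intro x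
    obtain ⟨N1, h1⟩ := exists_small x
    have hx := h1 N1 le_rfl
    set u := (Λ⁻¹) ^ N1 • x with hu
    rw [injective_iff_map_eq_zero]
    intro v hv
    have hgd : Differentiable ℂ g^[N1] := hg.iterate N1
    have hfd : Differentiable ℂ f^[N1] := hf.iterate N1
    have hsm : HasFDerivAt (fun x : E => (Λ⁻¹) ^ N1 • x)
        ((Λ⁻¹) ^ N1 • ContinuousLinearMap.id ℂ E) x := (hasFDerivAt_id x).const_smul _
    have hcomp : HasFDerivAt Φ ((fderiv ℂ g^[N1] (Φ u)).comp ((fderiv ℂ Φ u).comp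
        ((Λ⁻¹) ^ N1 • ContinuousLinearMap.id ℂ E))) x := by
      have h := (hgd (Φ u)).hasFDerivAt.comp x ((hΦ u).hasFDerivAt.comp x hsm)
      exact h.congr_of_eventuallyEq (Eventually.of_forall fun y => hiter N1 y)
    rw [hcomp.fderiv] at hv
    simp only [ContinuousLinearMap.comp_apply, smul_apply, ContinuousLinearMap.id_apply] at hv
    -- the iterate of `g` is an immersion
    have hid : (fderiv ℂ f^[N1] (g^[N1] (Φ u))).comp (fderiv ℂ g^[N1] (Φ u)) =
        ContinuousLinearMap.id ℂ E := by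
      have h2 : HasFDerivAt (f^[N1] ∘ g^[N1])
          ((fderiv ℂ f^[N1] (g^[N1] (Φ u))).comp (fderiv ℂ g^[N1] (Φ u))) (Φ u) :=
        (hfd _).hasFDerivAt.comp _ (hgd _).hasFDerivAt
      have h3 : f^[N1] ∘ g^[N1] = id := (Function.LeftInverse.iterate hfg N1).comp_eq_id
      rw [h3] at h2
      exact h2.unique (hasFDerivAt_id _)
    have h4 : fderiv ℂ Φ u ((Λ⁻¹) ^ N1 • v) = 0 := by
      have h5 := congrArg (fun L : E →L[ℂ] E => L (fderiv ℂ Φ u ((Λ⁻¹) ^ N1 • v))) hid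
      simp only [ContinuousLinearMap.comp_apply, ContinuousLinearMap.id_apply] at h5
      rw [hv, map_zero] at h5
      exact h5.symm
    have h5 : ‖fderiv ℂ Φ u - ContinuousLinearMap.id ℂ E‖ ≤ 1 / 2 := by
      have h6 : HasFDerivAt (fun x => Φ x - x) (fderiv ℂ Φ u - ContinuousLinearMap.id ℂ E) u :=
        (hΦ u).hasFDerivAt.fun_sub (hasFDerivAt_id u)
      refine h6.le_of_lip' (by norm_num) ?_
      have h7 : ∀ᶠ y in 𝓝 u, ‖y‖ < r := continuous_norm.continuousAt.eventually_lt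
        continuousAt_const hx
      filter_upwards [h7] with y hy
      exact hloc y u hy.le hx.le
    set w := (Λ⁻¹) ^ N1 • v with hw
    have h8 : ‖w‖ ≤ 1 / 2 * ‖w‖ := by
      have h9 := (fderiv ℂ Φ u - ContinuousLinearMap.id ℂ E).le_of_opNorm_le h5 w
      rw [sub_apply, h4, zero_sub, norm_neg, ContinuousLinearMap.id_apply] at h9
      exact h9
    have h9 : w = 0 := by
      rw [← norm_eq_zero]
      have := norm_nonneg w
      linarith
    rw [hw, smul_eq_zero] at h9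
    rcases h9 with h9 | h9
    · exact absurd h9 (pow_ne_zero _ (inv_ne_zero hΛ0))
    · exact h9

end Pool.Agent.KS6_4.EH
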