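import Pool.Agent.KS6_4.EH.Sh
import Pool.Agent.KS6_4.EH.Av

/-!
# Entire maps into the filled Julia set with thin image
-/

set_option autoImplicit false

namespace Pool.Agent.KS6_4.EH

open Filter Topology Set

lemma sup_bound {X : ℕ → ℂ} {r : ℕ} {A M : ℝ} (hA : 0 ≤ A) (hM : 0 ≤ M)
    (hb : ∃ C, ∀ n, ‖X n‖ ≤ C)
    (h : ∀ S, 0 ≤ S → (∀ j, r ≤ j → ‖X j‖ ≤ S) → ∀ m, r ≤ m → ‖X m‖ ^ 2 ≤ A * S + M) :
    ∀ m, r ≤ m → ‖X m‖ ≤ A + √M := by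
  obtain ⟨C, hC⟩ := hb
  set S := ⨆ j : ℕ, ‖X (r + j)‖ with hS
  have hbdd : BddAbove (range fun j : ℕ => ‖X (r + j)‖) := ⟨C, by rintro _ ⟨j, rfl⟩; exact hC _⟩
  have h1 : ∀ j, r ≤ j → ‖X j‖ ≤ S := by
    intro j hj
    obtain ⟨i, rfl⟩ := Nat.exists_eq_add_of_le hj
    exact le_ciSup hbdd i
  have hS0 : 0 ≤ S := (norm_nonneg _).trans (h1 r le_rfl)
  have h2 := h S hS0 h1
  have h3 : S ≤ √(A * S + M) := by
    apply ciSup_le
    intro j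
    apply Real.le_sqrt_of_sq_le
    exact h2 (r + j) (by omega)
  have h4 : S ^ 2 ≤ A * S + M := by
    have := Real.sq_sqrt (show 0 ≤ A * S + M by positivity)
    have h5 := Real.sqrt_nonneg (A * S + M)
    nlinarith
  have hsM := Real.sq_sqrt hM
  have hsM0 := Real.sqrt_nonneg M
  have h5 : S ≤ A + √M := by
    by_contra hcon
    push Not at hcon
    nlinarith
  exact fun m hm => (h1 m hm).trans h5

variable {k : ℕ} {q D : ℕ} {hq : q < k} {a : ℂ}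

/-- the linear prediction -/
noncomputable def lin (hk : 0 < k) (a : ℂ) (y : Fin k → ℂ) (n : ℕ) : ℂ :=
  a ^ (n / k) * y ⟨n % k, Nat.mod_lt _ hk⟩

lemma tendsto_scaled {E : Type*} [NormedAddCommGroup E] [NormedSpace ℂ E] {Φ : E → E}
    (h0 : Φ 0 = 0) (hd : HasFDerivAt Φ (ContinuousLinearMap.id ℂ E) 0) (ha : a ≠ 0)
    (ha1 : ‖a‖ < 1) (w : E) :
    Tendsto (fun J : ℕ => (a ^ J)⁻¹ • Φ (a ^ J • w)) atTop (𝓝 w) := by
  have h1 : HasDerivAt (fun t : ℂ => Φ (t • w)) w 0 := by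
    have h2 : HasDerivAt (fun t : ℂ => t • w) ((1 : ℂ) • w) 0 := (hasDerivAt_id 0).smul_const w
    have h3 : HasFDerivAt Φ (ContinuousLinearMap.id ℂ E) ((0 : ℂ) • w) := by rwa [zero_smul]
    have h4 : HasDerivAt (fun t : ℂ => Φ (t • w)) ((ContinuousLinearMap.id ℂ E) ((1 : ℂ) • w)) 0 :=
      h3.comp_hasDerivAt 0 h2
    rwa [ContinuousLinearMap.id_apply, one_smul] at h4
  rw [hasDerivAt_iff_tendsto_slope] at h1
  have h2 : Tendsto (fun J : ℕ => a ^ J) atTop (𝓝[≠] 0) := by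
    rw [tendsto_nhdsWithin_iff]
    exact ⟨tendsto_pow_atTop_nhds_zero_of_norm_lt_one ha1,
      Eventually.of_forall fun J => pow_ne_zero J ha⟩
  have h3 := h1.comp h2
  refine h3.congr fun J => ?_
  simp [slope, h0]

lemma lim_lin (hk : 0 < k) {Φ : (Fin k → ℂ) → Fin k → ℂ} (h0 : Φ 0 = 0)
    (hd : HasFDerivAt Φ (ContinuousLinearMap.id ℂ (Fin k → ℂ)) 0) (ha : a ≠ 0) (ha1 : ‖a‖ < 1)
    (hΦ : ∀ y m (i : Fin k), sq q D hq a (Φ y) (k * m + i) = Φ (a ^ m • y) i)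
    (y : Fin k → ℂ) (n : ℕ) :
    Tendsto (fun J : ℕ => (a ^ J)⁻¹ * sq q D hq a (Φ y) (n + k * J)) atTop
      (𝓝 (lin hk a y n)) := by
  have h1 := (continuous_apply (⟨n % k, Nat.mod_lt _ hk⟩ : Fin k)).continuousAt.tendsto.comp
    (tendsto_scaled h0 hd ha ha1 (a ^ (n / k) • y))
  refine h1.congr fun J => ?_
  have e : n + k * J = k * (J + n / k) + n % k := by
    have := Nat.mod_add_div n k
    rw [mul_add]
    omega
  have h2 := hΦ y (J + n / k) ⟨n % k, Nat.mod_lt _ hk⟩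
  simp only at h2
  rw [e, h2, pow_add, mul_smul]
  rfl

lemma decay (hk : 0 < k) {Φ : (Fin k → ℂ) → Fin k → ℂ} (h0 : Φ 0 = 0)
    (hd : HasFDerivAt Φ (ContinuousLinearMap.id ℂ (Fin k → ℂ)) 0) (ha : a ≠ 0) (ha1 : ‖a‖ < 1)
    (hΦ : ∀ y m (i : Fin k), sq q D hq a (Φ y) (k * m + i) = Φ (a ^ m • y) i)
    (y : Fin k → ℂ) {β : ℝ} (hβ : 0 < β) (hβ1 : β < 1) (hβa : ‖a‖ = β ^ k) :
    ∃ C, ∀ n, ‖sq q D hq a (Φ y) n‖ ≤ C * β ^ n := by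
  have h1 : ∀ i : Fin k, ∃ C, 0 ≤ C ∧ ∀ J : ℕ,
      ‖(a ^ J)⁻¹ * sq q D hq a (Φ y) (i + k * J)‖ ≤ C := by
    intro i
    have h2 := (lim_lin hk h0 hd ha ha1 hΦ y i).norm
    obtain ⟨C, hC⟩ := h2.bddAbove_range
    refine ⟨|C|, abs_nonneg _, fun J => ?_⟩
    exact (hC ⟨J, rfl⟩).trans (le_abs_self C)
  choose C hC0 hC using h1
  refine ⟨(∑ i, C i) * (β ^ k)⁻¹, fun n => ?_⟩
  have e : n = n % k + k * (n / k) := (Nat.mod_add_div n k).symm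
  have h2 := hC ⟨n % k, Nat.mod_lt _ hk⟩ (n / k)
  simp only at h2
  rw [← e, norm_mul, norm_inv, norm_pow, hβa] at h2
  have h3 : C ⟨n % k, Nat.mod_lt _ hk⟩ ≤ ∑ i, C i :=
    Finset.single_le_sum (fun i _ => hC0 i) (Finset.mem_univ _)
  have h4 : (β ^ k) ^ (n / k) ≤ (β ^ k)⁻¹ * β ^ n := by
    rw [le_inv_mul_iff₀ (by positivity), ← pow_mul, ← pow_add]
    apply pow_le_pow_of_le_one hβ.le hβ1.le
    have := Nat.mod_lt n hk
    omega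
  have h5 : 0 < (β ^ k) ^ (n / k) := by positivity
  have h6 : ‖sq q D hq a (Φ y) n‖ ≤ (∑ i, C i) * (β ^ k) ^ (n / k) := by
    rw [inv_mul_le_iff₀ h5] at h2
    nlinarith
  have h7 : 0 ≤ ∑ i, C i := Finset.sum_nonneg fun i _ => hC0 i
  calc _ ≤ _ := h6
    _ ≤ (∑ i, C i) * ((β ^ k)⁻¹ * β ^ n) := by gcongr
    _ = _ := by ring

/-- the thin map of `ℂ^q` -/
theorem exists_thin {q : ℕ} (hk : 0 < q) (hq : 1 < q) :
    ∃ T : (Fin q → ℂ) → Fin q → ℂ, Differentiable ℂ T ∧ T 0 = 0 ∧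
      HasFDerivAt T (ContinuousLinearMap.id ℂ (Fin q → ℂ)) 0 ∧
      (∀ ζ (i : Fin q), 1 ≤ (i : ℕ) → ‖T ζ i‖ ≤ 3 + √‖T ζ ⟨0, hk⟩‖) ∧
      Function.Injective T ∧ ∀ x, Function.Injective (fderiv ℂ T x) := by
  have ha : (1 / 2 : ℂ) ≠ 0 := by norm_num
  have ha1 : ‖(1 / 2 : ℂ)‖ < 1 := by norm_num
  obtain ⟨T, h1, h2, h3, h4, hinj⟩ := exists_Phi (k := q) (q := 1) (D := 2) (hq := hq) (a := 1 / 2)
    le_rfl le_rfl ha ha1
  refine ⟨T, h1, h2, h3, fun ζ i hi => ?_, hinj⟩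
  -- the number β with β ^ q = 1 / 2
  obtain ⟨b, hb⟩ := IsAlgClosed.exists_pow_nat_eq (1 / 2 : ℂ) hk
  have hβ : ‖b‖ ^ q = ‖(1 / 2 : ℂ)‖ := by rw [← norm_pow, hb]
  have hb0 : 0 < ‖b‖ := by
    rw [norm_pos_iff]
    rintro rfl
    rw [zero_pow (by omega)] at hb
    norm_num at hb
  have hb1 : ‖b‖ < 1 := by
    by_contra hcon
    push Not at hcon
    have := one_le_pow₀ hcon (n := q)
    linarith
  obtain ⟨C, hC⟩ := decay (q := 1) (hq := hq) hk h2 h3 ha ha1 h4 ζ hb0 hb1 hβ.symm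
  have hbd : ∃ C, ∀ n, ‖sq 1 2 hq (1 / 2) (T ζ) n‖ ≤ C := by
    refine ⟨|C|, fun n => (hC n).trans ?_⟩
    have h5 : ‖b‖ ^ n ≤ 1 := pow_le_one₀ hb0.le hb1.le
    have h6 : 0 ≤ ‖b‖ ^ n := by positivity
    nlinarith [le_abs_self C, abs_nonneg C]
  have key := sup_bound (X := sq 1 2 hq (1 / 2) (T ζ)) (r := 1) (A := 3)
    (M := ‖T ζ ⟨0, hk⟩‖) (by norm_num) (norm_nonneg _) hbd ?_ i hi
  · rw [sq_lt _ i.2] at key
    exact key
  · intro S hS hSb m hm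
    obtain ⟨n, rfl⟩ := Nat.exists_eq_add_of_le hm
    have h5 := sq_rec (q := 1) (D := 2) (hq := hq) (a := 1 / 2) (T ζ) n
    have h6 : sq 1 2 hq (1 / 2) (T ζ) (1 + n) ^ 2 =
        2 * sq 1 2 hq (1 / 2) (T ζ) (n + q) - sq 1 2 hq (1 / 2) (T ζ) n := by
      rw [h5, add_comm 1 n]
      ring
    rw [← norm_pow, h6]
    refine (norm_sub_le _ _).trans ?_
    rw [norm_mul, Complex.norm_ofNat]
    have h7 := hSb (n + q) (by omega)
    have h8 : ‖sq 1 2 hq (1 / 2) (T ζ) n‖ ≤ S + ‖T ζ ⟨0, hk⟩‖ := by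
      rcases Nat.eq_zero_or_pos n with h9 | h9
      · subst h9
        rw [sq_lt _ hk]
        linarith
      · have := hSb n h9
        have := norm_nonneg (T ζ ⟨0, hk⟩)
        linarith
    linarith

end Pool.Agent.KS6_4.EH
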