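import Mathlib

/-!
# Alternating sums
-/

set_option autoImplicit false

namespace Pool.Agent.KS6_4.EH

open Equiv

variable {E : Type*} {n : ℕ}

/-- the alternating sum over the permutations of the slots -/
noncomputable def altS (g : (Fin n → E) → ℝ) (v : Fin n → E) : ℝ :=
  ∑ σ : Perm (Fin n), ((Perm.sign σ : ℤ) : ℝ) * g (fun i => v (σ i))

lemma altS_add (g h : (Fin n → E) → ℝ) (v : Fin n → E) :
    altS (fun v => g v + h v) v = altS g v + altS h v := by
  unfold altS
  rw [← Finset.sum_add_distrib]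
  exact Finset.sum_congr rfl fun σ _ => mul_add _ _ _

lemma altS_const_mul (c : ℝ) (g : (Fin n → E) → ℝ) (v : Fin n → E) :
    altS (fun v => c * g v) v = c * altS g v := by
  unfold altS
  rw [Finset.mul_sum]
  exact Finset.sum_congr rfl fun σ _ => by ring

lemma altS_sum {ι : Type*} (s : Finset ι) (g : ι → (Fin n → E) → ℝ) (v : Fin n → E) :
    altS (fun v => ∑ i ∈ s, g i v) v = ∑ i ∈ s, altS (g i) v := by
  unfold altS
  rw [Finset.sum_comm]
  exact Finset.sum_congr rfl fun σ _ => Finset.mul_sum _ _ _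

lemma altS_perm (π : Perm (Fin n)) (g : (Fin n → E) → ℝ) (v : Fin n → E) :
    altS (fun v => g (fun i => v (π i))) v = ((Perm.sign π : ℤ) : ℝ) * altS g v := by
  unfold altS
  rw [Finset.mul_sum, ← Equiv.sum_comp (Equiv.mulRight π)
    (fun σ => ((Perm.sign π : ℤ) : ℝ) * (((Perm.sign σ : ℤ) : ℝ) * g (fun i => v (σ i))))]
  refine Finset.sum_congr rfl fun σ _ => ?_
  simp only [Equiv.coe_mulRight, Perm.sign_mul, Perm.coe_mul, Function.comp_apply]
  have h : ((Perm.sign π : ℤ) : ℝ) * ((Perm.sign π : ℤ) : ℝ) = 1 := by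
    rcases Int.units_eq_one_or (Perm.sign π) with h | h <;> rw [h] <;> simp
  push_cast
  linear_combination (-((Perm.sign σ : ℤ) : ℝ) * g (fun i => v (σ (π i)))) * h

lemma altS_swap_zero {a b : Fin n} (hab : a ≠ b) (g : (Fin n → E) → ℝ)
    (h : ∀ v, g (fun i => v (swap a b i)) = g v) (v : Fin n → E) : altS g v = 0 := by
  have h1 := altS_perm (swap a b) g v
  rw [Perm.sign_swap hab] at h1
  have h2 : (fun v : Fin n → E => g (fun i => v (swap a b i))) = g := funext h
  rw [h2] at h1
  push_cast at h1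
  linarith

/-- decomposition of a permutation according to the image of `0` -/
def dec (x : Fin (n + 1) × Perm (Fin n)) : Perm (Fin (n + 1)) :=
  x.1.cycleRange.symm * Perm.decomposeFin.symm (0, x.2)

lemma dec_zero (x : Fin (n + 1) × Perm (Fin n)) : dec x 0 = x.1 := by
  unfold dec
  simp

lemma dec_succ (x : Fin (n + 1) × Perm (Fin n)) (j : Fin n) :
    dec x j.succ = x.1.succAbove (x.2 j) := by
  unfold dec
  simp

lemma dec_sign (x : Fin (n + 1) × Perm (Fin n)) :
    ((Perm.sign (dec x) : ℤ) : ℝ) = (-1) ^ (x.1 : ℕ) * ((Perm.sign x.2 : ℤ) : ℝ) := by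
  unfold dec
  rw [Perm.sign_mul, Perm.sign_symm, Fin.sign_cycleRange, Perm.decomposeFin.symm_sign]
  simp

lemma dec_bijective : Function.Bijective (dec (n := n)) := by
  rw [Fintype.bijective_iff_injective_and_card]
  constructor
  · rintro ⟨i, σ⟩ ⟨j, τ⟩ h
    have h0 : i = j := by
      have := congrArg (fun π : Perm (Fin (n + 1)) => π 0) h
      simpa [dec_zero] using this
    subst h0
    have h1 : σ = τ := by
      ext x
      have := congrArg (fun π : Perm (Fin (n + 1)) => π x.succ) h
      simp only [dec_succ] at this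
      exact congrArg Fin.val (Fin.succAbove_right_injective this)
    rw [h1]
  · simp [Fintype.card_perm, Nat.factorial_succ]

lemma altS_dec (ψ : E → (Fin n → E) → ℝ) (v : Fin (n + 1) → E) :
    altS (fun w : Fin (n + 1) → E => ψ (w 0) (fun j => w j.succ)) v =
      ∑ i : Fin (n + 1), (-1) ^ (i : ℕ) * altS (ψ (v i)) (i.removeNth v) := by
  unfold altS
  rw [← dec_bijective.sum_comp, Fintype.sum_prod_type]
  refine Finset.sum_congr rfl fun i _ => ?_
  rw [Finset.mul_sum]
  refine Finset.sum_congr rfl fun τ _ => ?_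
  rw [dec_sign]
  simp only [dec_zero, dec_succ]
  rw [mul_assoc]
  rfl

end Pool.Agent.KS6_4.EH
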