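import Pool.Agent.KS6_4.EH.W1
import Pool.Graph.R_seed8.H72R3.HJ.Cut

/-!
# Products of 2-forms on `ℙ^k`
-/

set_option autoImplicit false

namespace Pool.Agent.KS6_4.EH

open Equiv Pool.Agent.H72R3.HJ
open scoped ContDiff

section Alg

variable {E : Type*} [AddCommGroup E] [Module ℝ E] {n : ℕ} {ι : Type*} [Fintype ι] [DecidableEq ι]

/-- multilinear maps given by products -/
def mkProd (blk : Fin n → ι) (F : ι → (Fin n → E) → ℝ)
    (hdep : ∀ i j v x, blk j ≠ i → F i (Function.update v j x) = F i v)
    (hadd : ∀ j v x y, F (blk j) (Function.update v j (x + y)) =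
      F (blk j) (Function.update v j x) + F (blk j) (Function.update v j y))
    (hsmul : ∀ j v (c : ℝ) x, F (blk j) (Function.update v j (c • x)) =
      c * F (blk j) (Function.update v j x)) :
    MultilinearMap ℝ (fun _ : Fin n => E) ℝ where
  toFun v := ∏ i, F i v
  map_update_add' := by
    intro inst v j x y
    obtain rfl : inst = instDecidableEqFin n := Subsingleton.elim _ _
    have h : ∀ w, ∏ i, F i (Function.update v j w) =
        F (blk j) (Function.update v j w) * ∏ i ∈ Finset.univ.erase (blk j), F i v := by
      intro w
      rw [← Finset.mul_prod_erase Finset.univ _ (Finset.mem_univ (blk j))]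
      congr 1
      refine Finset.prod_congr rfl fun i hi => ?_
      exact hdep i j v w (Finset.ne_of_mem_erase hi).symm
    rw [h, h, h, hadd, add_mul]
  map_update_smul' := by
    intro inst v j c x
    obtain rfl : inst = instDecidableEqFin n := Subsingleton.elim _ _
    have h : ∀ w, ∏ i, F i (Function.update v j w) =
        F (blk j) (Function.update v j w) * ∏ i ∈ Finset.univ.erase (blk j), F i v := by
      intro w
      rw [← Finset.mul_prod_erase Finset.univ _ (Finset.mem_univ (blk j))]
      congr 1
      refine Finset.prod_congr rfl fun i hi => ?_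
      exact hdep i j v w (Finset.ne_of_mem_erase hi).symm
    rw [h, h, hsmul, smul_eq_mul, mul_assoc]

lemma altS_eq (M : MultilinearMap ℝ (fun _ : Fin n => E) ℝ) (v : Fin n → E) :
    altS (fun v => M v) v = MultilinearMap.alternatization M v := by
  rw [MultilinearMap.alternatization_apply]
  unfold altS
  refine Finset.sum_congr rfl fun σ _ => ?_
  rw [Units.smul_def, zsmul_eq_mul]
  rfl

end Alg

variable {k m : ℕ}

/-- the first slot of the `i`-th pair -/
def pa (i : Fin (m + 1)) : Fin (2 * m + 1 + 1) := ⟨2 * i, by omega⟩

/-- the second slot of the `i`-th pair -/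
def pb (i : Fin (m + 1)) : Fin (2 * m + 1 + 1) := ⟨2 * i + 1, by omega⟩

lemma exists_pair (j : Fin (2 * m + 1 + 1)) : ∃ i : Fin (m + 1), j = pa i ∨ j = pb i := by
  refine ⟨⟨j / 2, by omega⟩, ?_⟩
  rcases Nat.mod_two_eq_zero_or_one j with h2 | h2
  · left; exact Fin.ext (by simp [pa]; omega)
  · right; exact Fin.ext (by simp [pb]; omega)

/-- the alternating sum of the product of `m + 1` forms of degree 2 -/
noncomputable def wed (α : Fin (m + 1) → FormFun k 2) : FormFun k (2 * m + 1 + 1) := fun z v =>
  altS (fun v => ∏ i, α i z ![v (pa i), v (pb i)]) v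

/-- the `(m + 1)`-st exterior power of a form of degree 2 -/
noncomputable def wpow (α : FormFun k 2) (m : ℕ) : FormFun k (2 * m + 1 + 1) := fun z v =>
  1 / 2 ^ (m + 1) * ∑ σ : Perm (Fin (2 * m + 1 + 1)), ((Perm.sign σ : ℤ) : ℝ) *
    ∏ i : Fin (m + 1), α z ![v (σ ⟨2 * i, by omega⟩), v (σ ⟨2 * i + 1, by omega⟩)]

lemma wpow_eq (α : FormFun k 2) : wpow α m = fun z v => 1 / 2 ^ (m + 1) * wed (fun _ => α) z v := rfl

lemma isForm_wed {α : Fin (m + 1) → FormFun k 2} (h : ∀ i, IsForm (α i)) : IsForm (wed α) where
  zero := by
    ext v
    unfold wed altS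
    show _ = (0 : ℝ)
    refine Finset.sum_eq_zero fun σ _ => ?_
    beta_reduce
    rw [Finset.prod_eq_zero (Finset.mem_univ 0), mul_zero]
    rw [(h 0).zero]
    rfl
  alternating := by
    intro z
    choose A hA using fun i => (h i).alternating z
    have hab : ∀ i : Fin (m + 1), pa i ≠ pb i := by
      intro i hi
      have := congrArg Fin.val hi
      simp [pa, pb] at this
    let blk : Fin (2 * m + 1 + 1) → Fin (m + 1) := fun j => ⟨j / 2, by omega⟩
    have hblk : ∀ j, j = pa (blk j) ∨ j = pb (blk j) := by
      intro j
      rcases Nat.mod_two_eq_zero_or_one j with h2 | h2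
      · left; exact Fin.ext (by simp [pa, blk]; omega)
      · right; exact Fin.ext (by simp [pb, blk]; omega)
    let M := mkProd blk (fun i v => A i ![v (pa i), v (pb i)])
      (by
        intro i j v x hij
        have h1 : pa i ≠ j := by
          rintro rfl
          apply hij
          exact Fin.ext (by simp [pa, blk])
        have h2 : pb i ≠ j := by
          rintro rfl
          apply hij
          exact Fin.ext (by simp [pb, blk]; omega)
        simp only [Function.update_of_ne h1, Function.update_of_ne h2])
      (by
        intro j v x y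
        set i := blk j with hi
        rcases hblk j with hj | hj
        · rw [← hi] at hj
          rw [hj]
          simp only [Function.update_self, Function.update_of_ne (hab i).symm, alt_add_left]
        · rw [← hi] at hj
          rw [hj]
          simp only [Function.update_self, Function.update_of_ne (hab i), alt_add_right])
      (by
        intro j v c x
        set i := blk j with hi
        rcases hblk j with hj | hj
        · rw [← hi] at hj
          rw [hj]
          simp only [Function.update_self, Function.update_of_ne (hab i).symm, alt_smul_left]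
        · rw [← hi] at hj
          rw [hj]
          simp only [Function.update_self, Function.update_of_ne (hab i), alt_smul_right])
    refine ⟨MultilinearMap.alternatization M, fun v => ?_⟩
    rw [← altS_eq]
    unfold wed
    congr 1
    ext v
    have e : M v = ∏ i, A i ![v (pa i), v (pb i)] := rfl
    rw [e]
    exact Finset.prod_congr rfl fun i _ => hA i _
  smooth := by
    intro v
    unfold wed altS
    apply ContDiffOn.sum
    intro σ _
    exact contDiffOn_const.mul (contDiffOn_prod fun i _ => (h i).smooth _)
  horizontal := by
    intro z v j c hv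
    unfold wed altS
    refine Finset.sum_eq_zero fun σ _ => ?_
    obtain ⟨i, hi⟩ := exists_pair (σ⁻¹ j)
    beta_reduce
    rw [Finset.prod_eq_zero (Finset.mem_univ i), mul_zero]
    rcases hi with hi | hi
    · refine (h i).horizontal z _ 0 c ?_
      rw [← hi]
      simpa using hv
    · refine (h i).horizontal z _ 1 c ?_
      rw [← hi]
      simpa using hv
  invariant := by
    intro z v c hc
    unfold wed altS
    refine Finset.sum_congr rfl fun σ _ => ?_
    congr 1
    exact Finset.prod_congr rfl fun i _ => (h i).smul2 _ _ _ hc

end Pool.Agent.KS6_4.EH
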