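import Pool.Agent.KS6_4.EH.W2

/-!
# Primitives of products
-/

set_option autoImplicit false
set_option linter.unusedSimpArgs false

namespace Pool.Agent.KS6_4.EH

open Equiv Pool.Agent.H72R3.HJ Topology Filter
open scoped ContDiff

variable {k m : ℕ}

/-- the factors of the primitive -/
noncomputable def fac (w : Fin (m + 1) → V k → ℝ) (z : V k) (v : Fin (2 * m + 1) → V k)
    (i : Fin (m + 1)) : ℝ :=
  if (i : ℕ) = 0 then al (w i) z (v 0)
  else ddc (w i) z ![v ⟨2 * i - 1, by omega⟩, v ⟨2 * i, by omega⟩]

/-- the primitive -/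
noncomputable def prim (w : Fin (m + 1) → V k → ℝ) : FormFun k (2 * m + 1) := fun z v =>
  if z = 0 then 0 else altS (fun v => ∏ i, fac w z v i) v

lemma prim_ne {w : Fin (m + 1) → V k → ℝ} {z : V k} (hz : z ≠ 0) (v : Fin (2 * m + 1) → V k) :
    prim w z v = altS (fun v => ∏ i, fac w z v i) v := by
  unfold prim
  rw [if_neg hz]

lemma fac_smooth {w : Fin (m + 1) → V k → ℝ} (hw : ∀ i, ContDiffOn ℝ ∞ (w i) {0}ᶜ)
    (v : Fin (2 * m + 1) → V k) (i : Fin (m + 1)) :
    ContDiffOn ℝ ∞ (fun z => fac w z v i) {0}ᶜ := by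
  unfold fac
  split_ifs with h
  · exact al_smooth (hw i) _
  · exact ddc_smooth (hw i) _

lemma pa_val (i : Fin (m + 1)) : (pa i : ℕ) = 2 * i := rfl

lemma pb_val (i : Fin (m + 1)) : (pb i : ℕ) = 2 * i + 1 := rfl

lemma one_val : ((1 : Fin (2 * m + 1 + 1)) : ℕ) = 1 := by rw [Fin.val_one]

lemma exists_slot (j : Fin (2 * m + 1)) : ∃ i : Fin (m + 1), ((i : ℕ) = 0 ∧ (j : ℕ) = 0) ∨
    ((i : ℕ) ≠ 0 ∧ ((j : ℕ) = 2 * i - 1 ∨ (j : ℕ) = 2 * i)) := by
  refine ⟨⟨(j + 1) / 2, by omega⟩, ?_⟩
  simp only
  omega

lemma isForm_prim {w : Fin (m + 1) → V k → ℝ} {κ : Fin (m + 1) → ℝ} (hw : ∀ i, Hg (κ i) (w i))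
    (hκ : κ 0 = 0) : IsForm (prim w) where
  zero := by
    ext v
    unfold prim
    rw [if_pos rfl]
    rfl
  alternating := by
    intro z
    rcases eq_or_ne z 0 with hz | hz
    · refine ⟨0, fun v => ?_⟩
      unfold prim
      rw [if_pos hz]
      rfl
    choose A hA using fun i => (hw i).isForm_ddc.alternating z
    let blk : Fin (2 * m + 1) → Fin (m + 1) := fun j => ⟨(j + 1) / 2, by omega⟩
    let s1 : Fin (m + 1) → Fin (2 * m + 1) := fun i => ⟨2 * i - 1, by omega⟩
    let s2 : Fin (m + 1) → Fin (2 * m + 1) := fun i => ⟨2 * i, by omega⟩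
    let F : Fin (m + 1) → (Fin (2 * m + 1) → V k) → ℝ := fun i v =>
      if (i : ℕ) = 0 then alLin (w i) z (v 0) else A i ![v (s1 i), v (s2 i)]
    have hF : ∀ v i, fac w z v i = F i v := by
      intro v i
      unfold fac
      simp only [F]
      split_ifs with h
      · rfl
      · exact hA i _
    have hs12 : ∀ i : Fin (m + 1), (i : ℕ) ≠ 0 → s1 i ≠ s2 i := by
      intro i hi h
      have := congrArg Fin.val h
      simp only [s1, s2] at this
      omega
    let M := mkProd blk F
      (by
        intro i j v x hij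
        simp only [F]
        have hij' : ¬ ((j : ℕ) + 1) / 2 = i := fun h => hij (Fin.ext h)
        split_ifs with h
        · have h1 : (0 : Fin (2 * m + 1)) ≠ j := by
            rintro rfl
            apply hij'
            simp [h]
          rw [Function.update_of_ne h1]
        · have h1 : s1 i ≠ j := by
            rintro rfl
            apply hij'
            simp only [s1]
            omega
          have h2 : s2 i ≠ j := by
            rintro rfl
            apply hij'
            simp only [s2]
            omega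
          rw [Function.update_of_ne h1, Function.update_of_ne h2])
      (by
        intro j v x y
        by_cases h : ((j : ℕ) + 1) / 2 = 0
        · have hj : j = 0 := Fin.ext (by rw [Fin.val_zero]; omega)
          have hb : ((blk j : Fin (m + 1)) : ℕ) = 0 := h
          simp only [F, if_pos hb]
          rw [hj]
          simp only [Function.update_self, map_add]
        · have hb : ¬ ((blk j : Fin (m + 1)) : ℕ) = 0 := h
          simp only [F, if_neg hb]
          have hs := hs12 (blk j) hb
          have hj : j = s1 (blk j) ∨ j = s2 (blk j) := by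
            rcases Nat.mod_two_eq_zero_or_one j with h2 | h2
            · right; exact Fin.ext (by simp only [s2, blk]; omega)
            · left; exact Fin.ext (by simp only [s1, blk]; omega)
          generalize blk j = i at *
          rcases hj with hj | hj
          · rw [hj]
            simp only [Function.update_self, Function.update_of_ne hs.symm, alt_add_left]
          · rw [hj]
            simp only [Function.update_self, Function.update_of_ne hs, alt_add_right])
      (by
        intro j v c x
        by_cases h : ((j : ℕ) + 1) / 2 = 0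
        · have hj : j = 0 := Fin.ext (by rw [Fin.val_zero]; omega)
          have hb : ((blk j : Fin (m + 1)) : ℕ) = 0 := h
          simp only [F, if_pos hb]
          rw [hj]
          simp only [Function.update_self, map_smul, smul_eq_mul]
        · have hb : ¬ ((blk j : Fin (m + 1)) : ℕ) = 0 := h
          simp only [F, if_neg hb]
          have hs := hs12 (blk j) hb
          have hj : j = s1 (blk j) ∨ j = s2 (blk j) := by
            rcases Nat.mod_two_eq_zero_or_one j with h2 | h2
            · right; exact Fin.ext (by simp only [s2, blk]; omega)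
            · left; exact Fin.ext (by simp only [s1, blk]; omega)
          generalize blk j = i at *
          rcases hj with hj | hj
          · rw [hj]
            simp only [Function.update_self, Function.update_of_ne hs.symm, alt_smul_left]
          · rw [hj]
            simp only [Function.update_self, Function.update_of_ne hs, alt_smul_right])
    refine ⟨MultilinearMap.alternatization M, fun v => ?_⟩
    rw [← altS_eq, prim_ne hz]
    congr 1
    ext v
    have e : M v = ∏ i, F i v := rfl
    rw [e]
    exact Finset.prod_congr rfl fun i _ => hF v i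
  smooth := by
    intro v
    have h : ContDiffOn ℝ ∞ (fun z => altS (fun v => ∏ i, fac w z v i) v) {0}ᶜ := by
      unfold altS
      apply ContDiffOn.sum
      intro σ _
      exact contDiffOn_const.mul (contDiffOn_prod fun i _ => fac_smooth (fun i => (hw i).sm) _ i)
    exact h.congr fun z hz => prim_ne hz v
  horizontal := by
    intro z v j c hv
    rcases eq_or_ne z 0 with hz | hz
    · unfold prim
      rw [if_pos hz]
    rw [prim_ne hz]
    unfold altS
    refine Finset.sum_eq_zero fun σ _ => ?_
    obtain ⟨i, hi⟩ := exists_slot (σ⁻¹ j)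
    beta_reduce
    rw [Finset.prod_eq_zero (Finset.mem_univ i), mul_zero]
    have hv' : v (σ (σ⁻¹ j)) = c • z := by simpa using hv
    rcases hi with ⟨h0, hj⟩ | ⟨h0, hj | hj⟩
    · unfold fac
      rw [if_pos h0]
      have e : σ⁻¹ j = 0 := Fin.ext hj
      rw [e] at hv'
      beta_reduce
      rw [hv']
      have hi0 : i = 0 := Fin.ext h0
      unfold al
      rw [smul_smul, (hw i).radial hz, hi0, hκ]
      ring
    · unfold fac
      rw [if_neg h0]
      have e : σ⁻¹ j = ⟨2 * i - 1, by omega⟩ := Fin.ext hj
      rw [e] at hv'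
      exact (hw i).isForm_ddc.horizontal z _ 0 c hv'
    · unfold fac
      rw [if_neg h0]
      have e : σ⁻¹ j = ⟨2 * i, by omega⟩ := Fin.ext hj
      rw [e] at hv'
      exact (hw i).isForm_ddc.horizontal z _ 1 c hv'
  invariant := by
    intro z v c hc
    rcases eq_or_ne z 0 with hz | hz
    · unfold prim
      rw [hz, smul_zero, if_pos rfl, if_pos rfl]
    rw [prim_ne hz, prim_ne (smul_ne_zero hc hz)]
    unfold altS
    refine Finset.sum_congr rfl fun σ _ => ?_
    congr 1
    refine Finset.prod_congr rfl fun i _ => ?_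
    unfold fac
    split_ifs with h
    · unfold al
      rw [smul_comm, (hw i).dir_smul hz hc]
    · exact (hw i).isForm_ddc.smul2 _ _ _ hc

lemma dir_finsum {ι : Type*} (s : Finset ι) {f : ι → V k → ℝ} {z : V k}
    (hf : ∀ i ∈ s, DifferentiableAt ℝ (f i) z) (a : V k) :
    dir (fun y => ∑ i ∈ s, f i y) z a = ∑ i ∈ s, dir (f i) z a := by
  unfold dir
  rw [fderiv_fun_sum hf]
  simp

lemma dir_finprod {ι : Type*} [DecidableEq ι] (s : Finset ι) {f : ι → V k → ℝ} {z : V k}
    (hf : ∀ i ∈ s, DifferentiableAt ℝ (f i) z) (a : V k) :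
    dir (fun y => ∏ i ∈ s, f i y) z a = ∑ i ∈ s, (∏ j ∈ s.erase i, f j z) * dir (f i) z a := by
  unfold dir
  have h := fderiv_finsetProd (𝕜 := ℝ) hf
  rw [h]
  simp [smul_eq_mul]

lemma dir_ddc {w : V k → ℝ} {z : V k} (hw : ContDiffOn ℝ ∞ w {0}ᶜ) (hz : z ≠ 0) (x p q : V k) :
    dir (fun y => ddc w y ![p, q]) z x =
      1 / (4 * Real.pi) * (hess (fun y => dir w y (Complex.I • p)) z x q -
        hess (fun y => dir w y (Complex.I • q)) z x p) := by
  have e : (fun y => ddc w y ![p, q]) =ᶠ[𝓝 z] fun y => 1 / (4 * Real.pi) *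
      (hess w y q (Complex.I • p) - hess w y p (Complex.I • q)) := by
    filter_upwards [mem_c hz] with y hy
    rw [ddc_ne hy]
    rfl
  have d1 : DifferentiableAt ℝ (fun y => hess w y q (Complex.I • p)) z :=
    ((hess_smooth hw _ _).contDiffAt (mem_c hz)).differentiableAt (by simp)
  have d2 : DifferentiableAt ℝ (fun y => hess w y p (Complex.I • q)) z :=
    ((hess_smooth hw _ _).contDiffAt (mem_c hz)).differentiableAt (by simp)
  rw [dir_congr e, dir_const_mul (d1.fun_sub d2), dir_sub d1 d2]
  rfl

theorem extD_prim {w : Fin (m + 1) → V k → ℝ} (hw : ∀ i, ContDiffOn ℝ ∞ (w i) {0}ᶜ) :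
    extD (prim w) = fun z v => 1 / 2 * wed (fun i => ddc (w i)) z v := by
  ext z v
  rcases eq_or_ne z 0 with hz | hz
  · unfold extD
    rw [if_pos hz, hz]
    have : wed (fun i => ddc (w i)) 0 v = 0 := by
      unfold wed altS
      refine Finset.sum_eq_zero fun σ _ => ?_
      beta_reduce
      rw [Finset.prod_eq_zero (Finset.mem_univ 0), mul_zero]
      rw [ddc_zero]
      rfl
    rw [this, mul_zero]
  have dF : ∀ v i, DifferentiableAt ℝ (fun y => fac w y v i) z := fun v i =>
    ((fac_smooth hw v i).contDiffAt (mem_c hz)).differentiableAt (by simp)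
  have dP : ∀ v : Fin (2 * m + 1) → V k, DifferentiableAt ℝ (fun y => ∏ i, fac w y v i) z :=
    fun v => (HasFDerivAt.finsetProd (fun i _ => (dF v i).hasFDerivAt)).differentiableAt
  set ψ : V k → (Fin (2 * m + 1) → V k) → ℝ := fun a v => dir (fun y => ∏ i, fac w y v i) z a
    with hψ
  have h1 : extD (prim w) z v = ∑ i : Fin (2 * m + 1 + 1), (-1) ^ (i : ℕ) *
      altS (ψ (v i)) (i.removeNth v) := by
    unfold extD
    rw [if_neg hz]
    refine Finset.sum_congr rfl fun i _ => ?_
    congr 1
    have e : (fun y => prim w y (i.removeNth v)) =ᶠ[𝓝 z]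
        fun y => altS (fun v => ∏ i, fac w y v i) (i.removeNth v) := by
      filter_upwards [mem_c hz] with y hy
      exact prim_ne hy _
    rw [dir_congr e]
    unfold altS
    rw [dir_finsum]
    · refine Finset.sum_congr rfl fun σ _ => ?_
      exact dir_const_mul (dP _) _ _
    · intro σ _
      exact (dP _).const_mul _
  rw [h1, ← altS_dec]
  -- expand the product
  have h2 : (fun u : Fin (2 * m + 1 + 1) → V k => ψ (u 0) (fun j => u j.succ)) = fun u =>
      ∑ i : Fin (m + 1), (∏ j ∈ Finset.univ.erase i, fac w z (fun j => u j.succ) j) *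
        dir (fun y => fac w y (fun j => u j.succ) i) z (u 0) := by
    ext u
    rw [hψ]
    exact dir_finprod Finset.univ (fun i _ => dF _ i) _
  rw [h2, altS_sum]
  -- the slots
  have hfac : ∀ (u : Fin (2 * m + 1 + 1) → V k) (y : V k) (j : Fin (m + 1)), (j : ℕ) ≠ 0 →
      fac w y (fun j => u j.succ) j = ddc (w j) y ![u (pa j), u (pb j)] := by
    intro u y j hj
    unfold fac
    rw [if_neg hj]
    have e1 : (⟨2 * j - 1, by omega⟩ : Fin (2 * m + 1)).succ = pa j :=
      Fin.ext (by rw [Fin.val_succ, pa_val]; simp only; omega)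
    have e2 : (⟨2 * j, by omega⟩ : Fin (2 * m + 1)).succ = pb j :=
      Fin.ext (by rw [Fin.val_succ, pb_val])
    beta_reduce
    rw [e1, e2]
  have hfac0 : ∀ (u : Fin (2 * m + 1 + 1) → V k) (y : V k),
      fac w y (fun j => u j.succ) 0 = al (w 0) y (u 1) := by
    intro u y
    unfold fac
    rw [if_pos (by simp)]
    rfl
  -- invariance of the other factors
  have hinv : ∀ (i : Fin (m + 1)) (a b : Fin (2 * m + 1 + 1)),
      ((i : ℕ) ≠ 0 → a ≠ 1 ∧ b ≠ 1) →
      (∀ j : Fin (m + 1), (j : ℕ) ≠ 0 → j ≠ i → pa j ≠ a ∧ pa j ≠ b ∧ pb j ≠ a ∧ pb j ≠ b) →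
      ∀ u : Fin (2 * m + 1 + 1) → V k,
      ∏ j ∈ Finset.univ.erase i, fac w z (fun j => (fun i => u (swap a b i)) j.succ) j =
      ∏ j ∈ Finset.univ.erase i, fac w z (fun j => u j.succ) j := by
    intro i a b h1 h2 u
    refine Finset.prod_congr rfl fun j hj => ?_
    have hji := Finset.ne_of_mem_erase hj
    by_cases hj0 : (j : ℕ) = 0
    · have hj0' : j = 0 := Fin.ext hj0
      rw [hj0', hfac0, hfac0 (fun i => u (swap a b i))]
      have hi0 : (i : ℕ) ≠ 0 := by
        intro h
        apply hji
        exact Fin.ext (by omega)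
      rw [swap_apply_of_ne_of_ne (h1 hi0).1.symm (h1 hi0).2.symm]
    · obtain ⟨c1, c2, c3, c4⟩ := h2 j hj0 hji
      rw [hfac u z j hj0, hfac (fun i => u (swap a b i)) z j hj0,
        swap_apply_of_ne_of_ne c1 c2, swap_apply_of_ne_of_ne c3 c4]
  -- the terms with `i ≠ 0` vanish
  have hzero : ∀ i : Fin (m + 1), (i : ℕ) ≠ 0 →
      altS (fun u : Fin (2 * m + 1 + 1) → V k =>
        (∏ j ∈ Finset.univ.erase i, fac w z (fun j => u j.succ) j) *
        dir (fun y => fac w y (fun j => u j.succ) i) z (u 0)) v = 0 := by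
    intro i hi
    have e : (fun u : Fin (2 * m + 1 + 1) → V k =>
        (∏ j ∈ Finset.univ.erase i, fac w z (fun j => u j.succ) j) *
        dir (fun y => fac w y (fun j => u j.succ) i) z (u 0)) = fun u =>
        (1 / (4 * Real.pi) * ((∏ j ∈ Finset.univ.erase i, fac w z (fun j => u j.succ) j) *
          hess (fun y => dir (w i) y (Complex.I • u (pa i))) z (u 0) (u (pb i)))) +
        (-(1 / (4 * Real.pi)) * ((∏ j ∈ Finset.univ.erase i, fac w z (fun j => u j.succ) j) *
          hess (fun y => dir (w i) y (Complex.I • u (pb i))) z (u 0) (u (pa i)))) := by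
      ext u
      have e1 : (fun y => fac w y (fun j => u j.succ) i) =
          fun y => ddc (w i) y ![u (pa i), u (pb i)] := by
        ext y
        exact hfac u y i hi
      rw [e1, dir_ddc (hw i) hz]
      ring
    have hpos : 1 ≤ (i : ℕ) := by omega
    rw [e, altS_add, altS_const_mul, altS_const_mul]
    have n1 : (0 : Fin (2 * m + 1 + 1)) ≠ pb i := by
      intro h; rw [Fin.ext_iff] at h; simp only [pa_val, pb_val, Fin.val_zero, one_val] at h; omega
    have n2 : (0 : Fin (2 * m + 1 + 1)) ≠ pa i := by
      intro h; rw [Fin.ext_iff] at h; simp only [pa_val, pb_val, Fin.val_zero, one_val] at h; omega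
    have n3 : pa i ≠ pb i := by
      intro h; rw [Fin.ext_iff] at h; simp only [pa_val, pb_val, Fin.val_zero, one_val] at h; omega
    have z1 := altS_swap_zero n1 (fun u : Fin (2 * m + 1 + 1) → V k =>
        (∏ j ∈ Finset.univ.erase i, fac w z (fun j => u j.succ) j) *
          hess (fun y => dir (w i) y (Complex.I • u (pa i))) z (u 0) (u (pb i))) (by
        intro u
        have h3 := hinv i 0 (pb i) (fun _ => ⟨by
          intro h; rw [Fin.ext_iff] at h; simp only [pa_val, pb_val, Fin.val_zero, one_val] at h; omega, by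
          intro h; rw [Fin.ext_iff] at h; simp only [pa_val, pb_val, Fin.val_zero, one_val] at h; omega⟩) (by
          intro j hj hji
          have hji' : (j : ℕ) ≠ i := fun h => hji (Fin.ext h)
          refine ⟨?_, ?_, ?_, ?_⟩ <;>
            (intro h; rw [Fin.ext_iff] at h; simp only [pa_val, pb_val, Fin.val_zero, one_val] at h; omega)) u
        beta_reduce
        beta_reduce at h3
        rw [h3, swap_apply_left, swap_apply_right, swap_apply_of_ne_of_ne n2.symm n3,
          hess_symm (dir_smooth (hw i) _) hz]) v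
    have z2 := altS_swap_zero n2 (fun u : Fin (2 * m + 1 + 1) → V k =>
        (∏ j ∈ Finset.univ.erase i, fac w z (fun j => u j.succ) j) *
          hess (fun y => dir (w i) y (Complex.I • u (pb i))) z (u 0) (u (pa i))) (by
        intro u
        have h3 := hinv i 0 (pa i) (fun _ => ⟨by
          intro h; rw [Fin.ext_iff] at h; simp only [pa_val, pb_val, Fin.val_zero, one_val] at h; omega, by
          intro h; rw [Fin.ext_iff] at h; simp only [pa_val, pb_val, Fin.val_zero, one_val] at h; omega⟩) (by
          intro j hj hji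
          have hji' : (j : ℕ) ≠ i := fun h => hji (Fin.ext h)
          refine ⟨?_, ?_, ?_, ?_⟩ <;>
            (intro h; rw [Fin.ext_iff] at h; simp only [pa_val, pb_val, Fin.val_zero, one_val] at h; omega)) u
        beta_reduce
        beta_reduce at h3
        rw [h3, swap_apply_left, swap_apply_right, swap_apply_of_ne_of_ne n1.symm n3.symm,
          hess_symm (dir_smooth (hw i) _) hz]) v
    rw [z1, z2]
    ring
  rw [Finset.sum_eq_single_of_mem (0 : Fin (m + 1)) (Finset.mem_univ _)
    (fun i _ hi => hzero i (fun h => hi (Fin.ext h)))]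
  -- the main term
  set R : (Fin (2 * m + 1 + 1) → V k) → ℝ := fun u =>
    ∏ j ∈ Finset.univ.erase (0 : Fin (m + 1)), ddc (w j) z ![u (pa j), u (pb j)] with hR
  have n01 : (0 : Fin (2 * m + 1 + 1)) ≠ 1 := by
    intro h; rw [Fin.ext_iff] at h; simp only [pa_val, pb_val, Fin.val_zero, one_val] at h; omega
  have hRR : ∀ u : Fin (2 * m + 1 + 1) → V k,
      ∏ j ∈ Finset.univ.erase (0 : Fin (m + 1)), fac w z (fun j => u j.succ) j = R u := by
    intro u
    refine Finset.prod_congr rfl fun j hj => ?_
    exact hfac u z j (fun h => Finset.ne_of_mem_erase hj (Fin.ext h))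
  have hRs : ∀ u : Fin (2 * m + 1 + 1) → V k, R (fun i => u (swap 0 1 i)) = R u := by
    intro u
    have h := hinv 0 0 1 (fun h => absurd rfl h) (by
      intro j hj _
      refine ⟨?_, ?_, ?_, ?_⟩ <;>
        (intro h; rw [Fin.ext_iff] at h; simp only [pa_val, pb_val, Fin.val_zero, one_val] at h; omega)) u
    rw [hRR] at h
    rw [← h]
    exact (hRR (fun i => u (swap 0 1 i))).symm
  obtain ⟨H, hH⟩ : ∃ H : (Fin (2 * m + 1 + 1) → V k) → ℝ, ∀ u, H u =
    R u * hess (w 0) z (u 0) (Complex.I • u 1) := ⟨_, fun _ => rfl⟩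
  have e1 : (fun u : Fin (2 * m + 1 + 1) → V k =>
      (∏ j ∈ Finset.univ.erase (0 : Fin (m + 1)), fac w z (fun j => u j.succ) j) *
        dir (fun y => fac w y (fun j => u j.succ) 0) z (u 0)) = fun u =>
      -(1 / (4 * Real.pi)) * H u := by
    ext u
    rw [hH]
    have e2 : (fun y => fac w y (fun j => u j.succ) 0) =
        fun y => -(1 / (4 * Real.pi)) * dir (w 0) y (Complex.I • u 1) := by
      ext y
      exact hfac0 u y
    rw [hRR, e2, dir_const_mul (((dir_smooth (hw 0) _).contDiffAt (mem_c hz)).differentiableAt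
      (by simp))]
    show _ = -(1 / (4 * Real.pi)) * (R u * dir (fun y => dir (w 0) y (Complex.I • u 1)) z (u 0))
    ring
  have e3 : (fun u : Fin (2 * m + 1 + 1) → V k => ∏ i, ddc (w i) z ![u (pa i), u (pb i)]) =
      fun u => (1 / (4 * Real.pi)) * (H (fun i => u (swap 0 1 i))) +
        -(1 / (4 * Real.pi)) * H u := by
    ext u
    rw [hH, hH]
    rw [← Finset.mul_prod_erase Finset.univ _ (Finset.mem_univ (0 : Fin (m + 1)))]
    have p0 : pa (0 : Fin (m + 1)) = 0 := Fin.ext (by rw [pa_val, Fin.val_zero, Fin.val_zero])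
    have p1 : pb (0 : Fin (m + 1)) = 1 := Fin.ext (by rw [pb_val, Fin.val_zero, one_val])
    rw [p0, p1, ddc_ne hz]
    beta_reduce
    rw [hRs, swap_apply_left, swap_apply_right]
    show 1 / (4 * Real.pi) * (hess (w 0) z (u 1) (Complex.I • u 0) -
      hess (w 0) z (u 0) (Complex.I • u 1)) * R u = _
    ring
  rw [e1, altS_const_mul]
  unfold wed
  rw [e3, altS_add, altS_const_mul, altS_const_mul, altS_perm, Perm.sign_swap n01]
  push_cast
  ring

end Pool.Agent.KS6_4.EH
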