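import Pool.Agent.KS6_4.EH.W3

/-!
# Currents supported off a linear subspace
-/

set_option autoImplicit false
set_option linter.unusedSimpArgs false

namespace Pool.Agent.KS6_4.EH

open Equiv Pool.Agent.H72R3.HJ Topology Filter Set
open scoped ContDiff

variable {k m : ℕ}

/-- `wed` is symmetric in its factors -/
lemma wed_swap (α : Fin (m + 1) → FormFun k 2) (t : Fin (m + 1)) :
    wed (fun i => α (swap 0 t i)) = wed α := by
  rcases eq_or_ne t 0 with rfl | ht
  · simp
  have ht' : (t : ℕ) ≠ 0 := fun h => ht (Fin.ext h)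
  ext z v
  set π : Perm (Fin (2 * m + 1 + 1)) := swap (pa 0) (pa t) * swap (pb 0) (pb t) with hπ
  have ea : ∀ i, π (pa i) = pa (swap 0 t i) := by
    intro i
    rw [hπ, Perm.coe_mul, Function.comp_apply, swap_apply_of_ne_of_ne (a := pb 0)]
    · rcases eq_or_ne i 0 with rfl | h0
      · rw [swap_apply_left, swap_apply_left]
      · rcases eq_or_ne i t with rfl | h1
        · rw [swap_apply_right, swap_apply_right]
        · rw [swap_apply_of_ne_of_ne h0 h1, swap_apply_of_ne_of_ne]
          · intro h; rw [Fin.ext_iff, pa_val, pa_val] at h; exact h0 (Fin.ext (by omega))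
          · intro h; rw [Fin.ext_iff, pa_val, pa_val] at h; exact h1 (Fin.ext (by omega))
    · intro h; rw [Fin.ext_iff, pa_val, pb_val] at h; omega
    · intro h; rw [Fin.ext_iff, pa_val, pb_val] at h; omega
  have eb : ∀ i, π (pb i) = pb (swap 0 t i) := by
    intro i
    rw [hπ, Perm.coe_mul, Function.comp_apply]
    have h2 : ∀ j : Fin (m + 1), swap (pa 0) (pa t) (pb j) = pb j := by
      intro j
      apply swap_apply_of_ne_of_ne
      · intro h; rw [Fin.ext_iff, pa_val, pb_val] at h; omega
      · intro h; rw [Fin.ext_iff, pa_val, pb_val] at h; omega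
    rcases eq_or_ne i 0 with rfl | h0
    · rw [swap_apply_left, swap_apply_left, h2]
    · rcases eq_or_ne i t with rfl | h1
      · rw [swap_apply_right, swap_apply_right, h2]
      · rw [swap_apply_of_ne_of_ne h0 h1, swap_apply_of_ne_of_ne (a := pb 0), h2]
        · intro h; rw [Fin.ext_iff, pb_val, pb_val] at h; exact h0 (Fin.ext (by omega))
        · intro h; rw [Fin.ext_iff, pb_val, pb_val] at h; exact h1 (Fin.ext (by omega))
  have hs : Perm.sign π = 1 := by
    have n1 : (pa 0 : Fin (2 * m + 1 + 1)) ≠ pa t := by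
      intro h; rw [Fin.ext_iff, pa_val, pa_val, Fin.val_zero] at h; omega
    have n2 : (pb 0 : Fin (2 * m + 1 + 1)) ≠ pb t := by
      intro h; rw [Fin.ext_iff, pb_val, pb_val, Fin.val_zero] at h; omega
    rw [hπ, Perm.sign_mul, Perm.sign_swap n1, Perm.sign_swap n2]
    norm_num
  have h1 := altS_perm π (fun v : Fin (2 * m + 1 + 1) → V k =>
    ∏ i, α (swap 0 t i) z ![v (pa i), v (pb i)]) v
  rw [hs] at h1
  have h2 : (fun v : Fin (2 * m + 1 + 1) → V k =>
      ∏ i, α (swap 0 t i) z ![v (π (pa i)), v (π (pb i))]) =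
      fun v => ∏ i, α i z ![v (pa i), v (pb i)] := by
    ext v
    rw [← Equiv.prod_comp (swap (0 : Fin (m + 1)) t)
      (fun i => α i z ![v (pa i), v (pb i)])]
    refine Finset.prod_congr rfl fun i _ => ?_
    rw [ea, eb]
  unfold wed
  beta_reduce at h1
  rw [h2] at h1
  rw [h1]
  simp

/-- additivity in one factor -/
lemma wed_add {α β γ : Fin (m + 1) → FormFun k 2} (t : Fin (m + 1))
    (h1 : ∀ i, i ≠ t → β i = α i) (h2 : ∀ i, i ≠ t → γ i = α i)
    (h3 : ∀ z v, α t z v = β t z v + γ t z v) : wed α = wed β + wed γ := by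
  ext z v
  show wed α z v = wed β z v + wed γ z v
  unfold wed
  rw [← altS_add]
  congr 1
  ext v
  rw [← Finset.mul_prod_erase Finset.univ _ (Finset.mem_univ t),
    ← Finset.mul_prod_erase Finset.univ _ (Finset.mem_univ t),
    ← Finset.mul_prod_erase Finset.univ _ (Finset.mem_univ t)]
  have e1 : ∏ i ∈ Finset.univ.erase t, β i z ![v (pa i), v (pb i)] =
      ∏ i ∈ Finset.univ.erase t, α i z ![v (pa i), v (pb i)] :=
    Finset.prod_congr rfl fun i hi => by rw [h1 i (Finset.ne_of_mem_erase hi)]
  have e2 : ∏ i ∈ Finset.univ.erase t, γ i z ![v (pa i), v (pb i)] =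
      ∏ i ∈ Finset.univ.erase t, α i z ![v (pa i), v (pb i)] :=
    Finset.prod_congr rfl fun i hi => by rw [h2 i (Finset.ne_of_mem_erase hi)]
  rw [e1, e2, h3, add_mul]

/-- forms of degree larger than the real dimension vanish -/
theorem isForm_zero {n : ℕ} {θ : FormFun m n} (h : IsForm θ) (hn : 2 * m < n) (z : V m)
    (v : Fin n → V m) : θ z v = 0 := by
  rcases eq_or_ne z 0 with hz | hz
  · rw [hz, h.zero]
    rfl
  obtain ⟨a, ha⟩ := h.alternating z
  set R : Submodule ℝ (V m) := (ℂ ∙ z).restrictScalars ℝ with hR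
  have hfin : Module.finrank ℝ (V m ⧸ R) < n := by
    have h1 := Submodule.finrank_quotient_add_finrank R
    have h2 : Module.finrank ℝ (V m) = 2 * (m + 1) := by
      rw [finrank_real_of_complex]
      simp
    have h3 : Module.finrank ℝ R = 2 := by
      have h4 : Module.finrank ℂ (ℂ ∙ z) = 1 := finrank_span_singleton hz
      have h5 : Module.finrank ℝ (ℂ ∙ z) = 2 * Module.finrank ℂ (ℂ ∙ z) := finrank_real_of_complex _
      rw [h4] at h5
      exact h5
    omega
  have hdep : ¬ LinearIndependent ℝ (fun i => R.mkQ (v i)) := by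
    intro hli
    have := hli.fintype_card_le_finrank
    simp at this
    omega
  rw [Fintype.not_linearIndependent_iff] at hdep
  obtain ⟨g, hg, i0, hi0⟩ := hdep
  have hmem : ∑ i, g i • v i ∈ R := by
    have h1 : R.mkQ (∑ i, g i • v i) = 0 := by
      rw [map_sum]
      simp only [map_smul]
      exact hg
    exact (Submodule.Quotient.mk_eq_zero R).1 h1
  rw [hR, Submodule.restrictScalars_mem, Submodule.mem_span_singleton] at hmem
  obtain ⟨c, hc⟩ := hmem
  have h1 : a (Function.update v i0 (∑ i, g i • v i)) = 0 := by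
    rw [← ha]
    exact h.horizontal z _ i0 c (by rw [Function.update_self, hc])
  rw [a.map_update_sum, Finset.sum_eq_single i0] at h1
  · rw [a.map_update_smul, Function.update_eq_self, smul_eq_mul] at h1
    rw [ha]
    exact (mul_eq_zero.1 h1).resolve_left hi0
  · intro j _ hj
    rw [a.map_update_smul, a.map_update_self v hj.symm, smul_zero]
  · intro h
    exact absurd (Finset.mem_univ _) h

end Pool.Agent.KS6_4.EH
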