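import Pool.Agent.KS6_4.EH.W4

/-!
# Closed currents of mass one meet the linear subspaces of complementary dimension
-/

set_option autoImplicit false
set_option linter.unusedSimpArgs false

namespace Pool.Agent.KS6_4.EH

open Equiv Pool.Agent.H72R3.HJ Topology Filter Set
open scoped ContDiff

variable {k m : ℕ}

/-- squared norm -/
noncomputable def Nk (z : V k) : ℝ := ∑ i, ‖z i‖ ^ 2

lemma Nk_contDiff : ContDiff ℝ ∞ (Nk (k := k)) := by
  unfold Nk
  apply ContDiff.sum
  intro i _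
  exact ContDiff.norm_sq ℝ (contDiff_apply ℝ ℂ i)

lemma Nk_nonneg (z : V k) : 0 ≤ Nk z := Finset.sum_nonneg fun i _ => by positivity

lemma Nk_pos {z : V k} (hz : z ≠ 0) : 0 < Nk z := by
  obtain ⟨i, hi⟩ := Function.ne_iff.1 hz
  have h1 : 0 < ‖z i‖ ^ 2 := by
    have := norm_pos_iff.2 hi
    positivity
  exact lt_of_lt_of_le h1
    (Finset.single_le_sum (f := fun i => ‖z i‖ ^ 2) (fun j _ => by positivity) (Finset.mem_univ i))

lemma Nk_smul (z : V k) (c : ℂ) : Nk (c • z) = ‖c‖ ^ 2 * Nk z := by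
  unfold Nk
  rw [Finset.mul_sum]
  refine Finset.sum_congr rfl fun i _ => ?_
  rw [Pi.smul_apply, smul_eq_mul, norm_mul, mul_pow]

lemma Nk_zero : Nk (0 : V k) = 0 := by simp [Nk]

/-- potential of the Fubini-Study form -/
noncomputable def Lk (z : V k) : ℝ := Real.log (Nk z)

lemma Hg_Lk : Hg 2 (Lk (k := k)) where
  sm := by
    intro z hz
    exact ((Nk_contDiff.contDiffAt.log (Nk_pos hz).ne')).contDiffWithinAt
  hom := by
    intro z hz c hc
    unfold Lk
    have h1 := norm_pos_iff.2 hc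
    rw [Nk_smul, Real.log_mul (by positivity) (Nk_pos hz).ne', Real.log_pow]
    push_cast
    ring

lemma omega_eq : omega k = ddc Lk := rfl

/-- cut-off logarithm -/
noncomputable def Gc (c s : ℝ) : ℝ := -(Real.smoothTransition (2 / c * s - 1) * Real.log s)

lemma Gc_contDiff {c : ℝ} (hc : 0 < c) : ContDiff ℝ ∞ (Gc c) := by
  rw [contDiff_iff_contDiffAt]
  intro s
  rcases le_or_gt s 0 with hs | hs
  · have e : Gc c =ᶠ[𝓝 s] fun _ => 0 := by
      have h : ∀ᶠ t in 𝓝 s, t < c / 2 := eventually_lt_nhds (by linarith)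
      filter_upwards [h] with t ht
      unfold Gc
      rw [Real.smoothTransition.zero_of_nonpos]
      · simp
      · have : 2 / c * t ≤ 2 / c * (c / 2) := by gcongr
        have h2 : 2 / c * (c / 2) = 1 := by field_simp
        linarith
    exact contDiffAt_const.congr_of_eventuallyEq e
  · unfold Gc
    have h1 : ContDiffAt ℝ ∞ (fun s : ℝ => Real.smoothTransition (2 / c * s - 1)) s :=
      Real.smoothTransition.contDiffAt.comp s (by fun_prop)
    exact (h1.mul (contDiffAt_id.log hs.ne')).neg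

lemma Gc_eq {c s : ℝ} (hc : 0 < c) (hs : c ≤ s) : Gc c s = -Real.log s := by
  unfold Gc
  rw [Real.smoothTransition.one_of_one_le, one_mul]
  have : 2 / c * c ≤ 2 / c * s := by gcongr
  have h2 : 2 / c * c = 2 := by field_simp
  linarith

/-- the global potential -/
noncomputable def vk (ℓ : V k →L[ℂ] V m) (c : ℝ) (z : V k) : ℝ := Gc c (Nk (ℓ z) / Nk z)

lemma Nl_contDiff (ℓ : V k →L[ℂ] V m) : ContDiff ℝ ∞ (fun z => Nk (ℓ z)) :=
  Nk_contDiff.comp (ℓ.restrictScalars ℝ).contDiff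

lemma Hg_vk (ℓ : V k →L[ℂ] V m) {c : ℝ} (hc : 0 < c) : Hg 0 (vk ℓ c) where
  sm := by
    intro z hz
    have h : ContDiffAt ℝ ∞ (fun z => Nk (ℓ z) / Nk z) z :=
      (Nl_contDiff ℓ).contDiffAt.div Nk_contDiff.contDiffAt (Nk_pos hz).ne'
    exact ((Gc_contDiff hc).contDiffAt.comp z h).contDiffWithinAt
  hom := by
    intro z hz d hd
    unfold vk
    have h1 : ‖d‖ ^ 2 ≠ 0 := by
      have := norm_pos_iff.2 hd
      positivity
    rw [map_smul, Nk_smul, Nk_smul, mul_div_mul_left _ _ h1]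
    ring

/-- the truncated potential -/
noncomputable def Lv (ℓ : V k →L[ℂ] V m) (c : ℝ) (z : V k) : ℝ := Lk z - vk ℓ c z

lemma Hg_Lv (ℓ : V k →L[ℂ] V m) {c : ℝ} (hc : 0 < c) : Hg 2 (Lv ℓ c) := by
  have := Hg_Lk.sub (Hg_vk ℓ hc)
  rw [sub_zero] at this
  exact this

lemma dir_compL (ℓ : V k →L[ℂ] V m) {U : V m → ℝ} {y : V k} (hU : DifferentiableAt ℝ U (ℓ y))
    (a : V k) : dir (fun x => U (ℓ x)) y a = dir U (ℓ y) (ℓ a) := by
  have h1 : HasFDerivAt (fun x : V k => ℓ x) (ℓ.restrictScalars ℝ) y :=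
    (ℓ.restrictScalars ℝ).hasFDerivAt
  have h2 := hU.hasFDerivAt.comp y h1
  unfold dir
  have h3 : fderiv ℝ (fun x => U (ℓ x)) y = (fderiv ℝ U (ℓ y)).comp (ℓ.restrictScalars ℝ) :=
    h2.fderiv
  rw [h3]
  rfl

lemma hess_compL (ℓ : V k →L[ℂ] V m) {U : V m → ℝ} {y : V k} (hU : ContDiffOn ℝ ∞ U {0}ᶜ)
    (hy : ℓ y ≠ 0) (a b : V k) :
    hess (fun x => U (ℓ x)) y a b = hess U (ℓ y) (ℓ a) (ℓ b) := by
  have e : (fun x => dir (fun x => U (ℓ x)) x b) =ᶠ[𝓝 y] fun x => (fun w => dir U w (ℓ b)) (ℓ x) := by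
    have h : ∀ᶠ x in 𝓝 y, ℓ x ≠ 0 := ℓ.continuous.continuousAt.eventually_ne hy
    filter_upwards [h] with x hx
    exact dir_compL ℓ ((cda hU hx).differentiableAt (by simp)) b
  unfold hess
  rw [dir_congr e, dir_compL ℓ
    (((dir_smooth hU (ℓ b)).contDiffAt (mem_c hy)).differentiableAt (by simp))]

lemma ddc_Lv (ℓ : V k →L[ℂ] V m) {c : ℝ} (hc : 0 < c) {z : V k} (hz : z ≠ 0)
    (h : c < Nk (ℓ z) / Nk z) (a b : V k) :
    ddc (Lv ℓ c) z ![a, b] = omega m (ℓ z) ![ℓ a, ℓ b] := by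
  have hne : ∀ y : V k, c < Nk (ℓ y) / Nk y → Nk (ℓ y) ≠ 0 := by
    intro y hy h0
    rw [h0, zero_div] at hy
    linarith
  have hℓ : ℓ z ≠ 0 := by
    intro h0
    apply hne z h
    rw [h0, Nk_zero]
  have hcont : ContinuousAt (fun y : V k => Nk (ℓ y) / Nk y) z :=
    (Nl_contDiff ℓ).continuous.continuousAt.div Nk_contDiff.continuous.continuousAt (Nk_pos hz).ne'
  have e : Lv ℓ c =ᶠ[𝓝 z] fun y => Lk (ℓ y) := by
    filter_upwards [mem_c hz, hcont.eventually_const_lt h] with y hy0 hy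
    unfold Lv Lk vk
    rw [Gc_eq hc hy.le, Real.log_div (hne y hy) (Nk_pos hy0).ne']
    ring
  rw [ddc_congr e, omega_eq, ddc_ne hz, ddc_ne hℓ, hess_compL ℓ Hg_Lk.sm hℓ,
    hess_compL ℓ Hg_Lk.sm hℓ, map_smul, map_smul]
  rfl

lemma wed_Lv (ℓ : V k →L[ℂ] V m) {c : ℝ} (hc : 0 < c) {z : V k} (hz : z ≠ 0)
    (h : c < Nk (ℓ z) / Nk z) : wed (m := m) (fun _ => ddc (Lv ℓ c)) z = 0 := by
  ext v
  have h1 : wed (m := m) (fun _ => ddc (Lv ℓ c)) z v =
      wed (m := m) (fun _ => omega m) (ℓ z) (fun i => ℓ (v i)) := by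
    unfold wed altS
    refine Finset.sum_congr rfl fun σ _ => ?_
    congr 1
    exact Finset.prod_congr rfl fun i _ => ddc_Lv ℓ hc hz h _ _
  rw [h1]
  exact isForm_zero (isForm_wed fun _ => Hg_Lk.isForm_ddc) (by omega) _ _

/-- exactness of the products with a factor `ddc v` -/
lemma T_zero {T : FormFun k (2 * m + 1 + 1) → ℝ} (hT : IsClosedCurrent T)
    {w : Fin (m + 1) → V k → ℝ} {κ : Fin (m + 1) → ℝ} (hw : ∀ i, Hg (κ i) (w i))
    (t : Fin (m + 1)) (ht : κ t = 0) : T (wed (fun i => ddc (w i))) = 0 := by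
  rw [← wed_swap _ t]
  have h1 : IsForm (prim (fun i => w (swap 0 t i))) :=
    isForm_prim (κ := fun i => κ (swap 0 t i)) (fun i => hw _) (by
      show κ (swap 0 t 0) = 0
      rw [swap_apply_left, ht])
  have h2 := hT.closed _ h1
  rw [extD_prim (fun i => (hw _).sm)] at h2
  have h3 : (fun z v => 1 / 2 * wed (fun i => ddc (w (swap 0 t i))) z v :
      FormFun k (2 * m + 1 + 1)) = (1 / 2 : ℝ) • wed (fun i => ddc (w (swap 0 t i))) := rfl
  rw [h3, hT.smul _ _ (isForm_wed fun i => (hw _).isForm_ddc)] at h2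
  linarith

theorem zero_mass (ℓ : V k →L[ℂ] V m) {S : Set (Fin k → ℂ)} {c : ℝ} (hc : 0 < c)
    (h : ∀ z ∈ cone S, c * Nk z ≤ Nk (ℓ z)) (T : FormFun k (2 * m + 1 + 1) → ℝ)
    (hT : IsClosedCurrent T) (hs : IsSupportedInClosure T S) : T (wpow (omega k) m) = 0 := by
  have hcl : ∀ z ∈ closure (cone S), c * Nk z ≤ Nk (ℓ z) := by
    intro z hz
    have hcl : IsClosed {z : V k | c * Nk z ≤ Nk (ℓ z)} :=
      isClosed_le (continuous_const.mul Nk_contDiff.continuous) (Nl_contDiff ℓ).continuous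
    exact closure_minimal h hcl hz
  have hc2 : 0 < c / 2 := by positivity
  have hLv := Hg_Lv ℓ hc2
  have hvk := Hg_vk ℓ hc2
  -- the potentials
  let pot : ℕ → Fin (m + 1) → V k → ℝ := fun t i => if (i : ℕ) < t then Lv ℓ (c / 2) else Lk
  have hpot : ∀ t i, Hg 2 (pot t i) := by
    intro t i
    simp only [pot]
    split_ifs
    · exact hLv
    · exact Hg_Lk
  have hstep : ∀ t, t < m + 1 → T (wed (fun i => ddc (pot t i))) =
      T (wed (fun i => ddc (pot (t + 1) i))) := by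
    intro t ht
    let w : Fin (m + 1) → V k → ℝ := fun i => if (i : ℕ) = t then vk ℓ (c / 2) else pot t i
    have hadd : wed (fun i => ddc (pot t i)) =
        wed (fun i => ddc (pot (t + 1) i)) + wed (fun i => ddc (w i)) := by
      apply wed_add (⟨t, ht⟩ : Fin (m + 1))
      · intro i hi
        have hi' : (i : ℕ) ≠ t := fun h => hi (Fin.ext h)
        simp only [pot]
        by_cases h3 : (i : ℕ) < t
        · rw [if_pos h3, if_pos (by omega)]
        · rw [if_neg h3, if_neg (by omega)]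
      · intro i hi
        have hi' : (i : ℕ) ≠ t := fun h => hi (Fin.ext h)
        simp only [w]
        rw [if_neg hi']
      · intro z v
        simp only [pot, w]
        rw [if_neg (lt_irrefl t), if_pos (Nat.lt_succ_self t), if_true]
        have : ddc (Lv ℓ (c / 2)) z v = ddc Lk z v - ddc (vk ℓ (c / 2)) z v :=
          ddc_sub Hg_Lk.sm hvk.sm z v
        linarith
    have hw : ∀ i : Fin (m + 1), Hg (if (i : ℕ) = t then 0 else 2) (w i) := by
      intro i
      simp only [w]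
      split_ifs
      · exact hvk
      · exact hpot t i
    have hz := T_zero hT (κ := fun i : Fin (m + 1) => if (i : ℕ) = t then 0 else 2) hw ⟨t, ht⟩ (by simp)
    rw [hadd, hT.add _ _ (isForm_wed fun i => (hpot _ i).isForm_ddc)
      (isForm_wed fun i => (hw i).isForm_ddc), hz, add_zero]
  have hall : ∀ t, t ≤ m + 1 → T (wed (fun i => ddc (pot 0 i))) =
      T (wed (fun i => ddc (pot t i))) := by
    intro t
    induction t with
    | zero => intro _; rfl
    | succ t ih =>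
      intro ht
      rw [ih (by omega), hstep t (by omega)]
  have h2 := hall (m + 1) le_rfl
  have e0 : (fun i : Fin (m + 1) => ddc (pot 0 i)) = fun _ => omega k := by
    ext1 i
    simp only [pot]
    rw [if_neg (by omega), omega_eq]
  have e1 : (fun i : Fin (m + 1) => ddc (pot (m + 1) i)) = fun _ => ddc (Lv ℓ (c / 2)) := by
    ext1 i
    simp only [pot]
    rw [if_pos i.2]
  rw [e0, e1] at h2
  have h3 : T (wed (m := m) fun _ => ddc (Lv ℓ (c / 2))) = 0 := by
    apply hs _ (isForm_wed fun _ => hLv.isForm_ddc)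
    intro z hz hz0
    have h4 := hcl z hz
    have hN := Nk_pos hz0
    have h5 : c / 2 < Nk (ℓ z) / Nk z := by
      rw [lt_div_iff₀ hN]
      nlinarith
    have hcont : ContinuousAt (fun y : V k => Nk (ℓ y) / Nk y) z :=
      (Nl_contDiff ℓ).continuous.continuousAt.div Nk_contDiff.continuous.continuousAt hN.ne'
    filter_upwards [mem_c hz0, hcont.eventually_const_lt h5] with y hy0 hy
    exact wed_Lv ℓ hc2 hy0 hy
  have h4 : wpow (omega k) m = (1 / 2 ^ (m + 1) : ℝ) • wed (m := m) (fun _ => omega k) := rfl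
  rw [h4, hT.smul _ _ (isForm_wed fun _ => by rw [omega_eq]; exact Hg_Lk.isForm_ddc), h2, h3,
    mul_zero]

end Pool.Agent.KS6_4.EH
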